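import Pool.Agent.Y528.KL.Defs
import Pool.Agent.H586P.T_tt

/-!
# A calculus for polynomial-size Frege proofs

`Sq F M Γ A e`: the formula `AND Γ → A` has size at most `M` and an `F`-proof of size at most
`M ^ e`. `Good F M`: `M` is larger than a constant depending on `F` only.
-/

set_option autoImplicit false

namespace Pool.Agent.Y528.KL

open Pool.Agent.H555R2.PF Pool.Agent.H555R2.PF.Fm Pool.Agent.TH677.EF

variable {F : List Rule}

/-! ### proofs -/

theorem Pf.mono {A : Fm} {m m' : ℕ} (h : Pf F A m) (hm : m ≤ m') : Pf F A m' := by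
  obtain ⟨D, h1, h2, h3⟩ := h
  exact ⟨D, h1, h2, h3.trans hm⟩

theorem Pf.size_le {A : Fm} {m : ℕ} (h : Pf F A m) : A.size ≤ m := by
  obtain ⟨D, h1, h2, h3⟩ := h
  exact (size_le_psize h2).trans h3

theorem fr_suffix {D : List Fm} : ∀ {L : List Fm}, Fr F (L ++ D) → Fr F D := by
  intro L
  induction L with
  | nil => exact fun h => h
  | cons A L ih =>
    intro h
    cases h with
    | rule h _ => exact ih h

/-- a proof whose last line is `A` -/
theorem Pf.last {A : Fm} {m : ℕ} (h : Pf F A m) :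
    ∃ L : List Fm, Fr F (A :: L) ∧ psize (A :: L) ≤ m := by
  obtain ⟨D, h1, h2, h3⟩ := h
  obtain ⟨L1, L2, rfl⟩ := List.append_of_mem h2
  refine ⟨L2, fr_suffix h1, ?_⟩
  rw [psize_append] at h3
  omega

theorem pf_of_ca {A : Fm} {m : ℕ} (h : Ca F ∅ [A] m) : Pf F A m := by
  obtain ⟨D, h1, h2, h3⟩ := h [] Fr.nil (by simp)
  rw [List.append_nil] at h1 h2
  exact ⟨D, h1, h2 A (by simp), h3⟩

theorem ca_of_pf {A : Fm} {m : ℕ} (h : Pf F A m) : Ca F ∅ [A] m := by
  obtain ⟨D, h1, h2, h3⟩ := h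
  intro L hL _
  refine ⟨D, hL.append h1, ?_, h3⟩
  intro B hB
  simp only [List.mem_singleton] at hB
  subst hB
  exact List.mem_append_left _ h2

theorem fr_of_fproof {L : List Fm} (h : Pool.Agent.H586P.FO.FProof F L) : Fr F L := by
  induction h with
  | nil => exact Fr.nil
  | rule _ hB ih => exact Fr.rule ih hB

theorem pf_of_can {A : Fm} {m : ℕ} (h : Pool.Agent.H586P.FO.Can F ∅ [A] m) : Pf F A m := by
  obtain ⟨D, h1, h2, h3⟩ := h [] Pool.Agent.H586P.FO.FProof.nil (by simp)
  rw [List.append_nil] at h1 h2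
  exact ⟨D, fr_of_fproof h1, h2 A (by simp), h3⟩

theorem Pf.inst {A : Fm} {m : ℕ} (h : Pf F A m) {σ : ℕ → Fm} {M : ℕ} (hM : 1 ≤ M)
    (hσ : ∀ n, (σ n).size ≤ M) : Pf F (A.subst σ) (m * M) := by
  obtain ⟨D, h1, h2, h3⟩ := h
  refine ⟨D.map (Fm.subst σ), h1.map σ, List.mem_map.2 ⟨A, h2, rfl⟩, ?_⟩
  exact (psize_map_le hM hσ D).trans (Nat.mul_le_mul_right _ h3)

/-- instances where only the variables of `A` matter -/
theorem Pf.inst' {A : Fm} {m : ℕ} (h : Pf F A m) {σ : ℕ → Fm} {M : ℕ} (hM : 1 ≤ M)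
    (hσ : ∀ n ∈ A.vars, (σ n).size ≤ M) : Pf F (A.subst σ) (m * M) := by
  classical
  have h1 : A.subst σ = A.subst (fun n => if n ∈ A.vars then σ n else var 0) :=
    subst_congr (fun n hn => by simp [hn])
  rw [h1]
  refine h.inst hM fun n => ?_
  split_ifs with hn
  · exact hσ n hn
  · simpa [size] using hM

/-- instances of tautologies with few variables -/
theorem pf_taut (hF : IsFrege F) : ∃ c : ℕ, ∀ C : Fm, (∀ v : ℕ → Prop, C.eval v) →
    ∀ (σ : ℕ → Fm) (M : ℕ), 1 ≤ M → (∀ n ∈ C.vars, (σ n).size ≤ M) →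
    Pf F (C.subst σ) (c * C.size ^ 4 * 2 ^ C.vars.card * M) := by
  obtain ⟨c, hc⟩ := Pool.Agent.H586P.T_tt.t_tt F hF
  refine ⟨c, fun C hC σ M hM hσ => ?_⟩
  exact (pf_of_can (hc C hC)).inst' hM hσ

/-- modus ponens -/
theorem pf_mp (hF : IsFrege F) : ∃ c : ℕ, ∀ (A B : Fm) (m m' : ℕ), Pf F (imp A B) m →
    Pf F A m' → Pf F B (c * m + m') := by
  obtain ⟨c, hc⟩ := schemaC hF [imp (var 0) (var 1), var 0] (var 1) (by
    intro v h; simp [eval] at h ⊢; tauto)
  refine ⟨c + 1, fun A B m m' h1 h2 => ?_⟩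
  have hs := h1.size_le
  simp only [size] at hs
  have h3 := hc [A, B] m (by omega) (by
    intro X hX; simp at hX; rcases hX with rfl | rfl <;> omega)
    (∅ ∪ {Y | Y ∈ [imp A B] ++ [A]}) (by
      intro Y hY
      simp only [List.mem_cons, List.not_mem_nil, or_false] at hY
      rcases hY with rfl | rfl <;> right <;> simp [subst, asg])
  have h4 := pf_of_ca ((((ca_of_pf h1).append (ca_of_pf h2)).cut h3).sub (G' := [B]) (by
    intro Y hY
    simpa [subst, asg] using hY))
  refine h4.mono ?_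
  nlinarith

/-! ### the constant -/

/-- constant of `pf_taut` -/
noncomputable def cT (F : List Rule) : ℕ := by
  classical exact if h : IsFrege F then (pf_taut h).choose else 0

/-- constant of `pf_mp` -/
noncomputable def cMP (F : List Rule) : ℕ := by
  classical exact if h : IsFrege F then (pf_mp h).choose else 0

/-- `M` is large -/
structure Good (F : List Rule) (M : ℕ) : Prop where
  hF : IsFrege F
  two : 100 ≤ M
  ct : cT F * 100 ^ 4 * 2 ^ 100 ≤ M
  cmp : cMP F + 1 ≤ M

/-- the constant from which on `M` is large -/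
noncomputable def goodC (F : List Rule) : ℕ := 100 + cT F * 100 ^ 4 * 2 ^ 100 + (cMP F + 1)

theorem good_of_le {M : ℕ} (hF : IsFrege F) (h : goodC F ≤ M) : Good F M := by
  unfold goodC at h
  exact ⟨hF, by omega, by omega, by omega⟩

namespace Good

variable {M : ℕ}

theorem taut (hG : Good F M) (C : Fm) (hC : ∀ v : ℕ → Prop, C.eval v) (hs : C.size ≤ 100)
    (l : List Fm) {e : ℕ} (hl : ∀ n ∈ C.vars, (asg l n).size ≤ M ^ e) :
    Pf F (C.subst (asg l)) (M ^ (e + 1)) := by
  have h1 : 1 ≤ M ^ e := Nat.one_le_pow _ _ (by have := hG.two; omega)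
  have h := (pf_taut hG.hF).choose_spec C hC (asg l) (M ^ e) h1 hl
  refine h.mono ?_
  have hc : cT F = (pf_taut hG.hF).choose := by
    unfold cT
    rw [dif_pos hG.hF]
  rw [← hc, pow_succ M e, mul_comm (M ^ e) M]
  refine Nat.mul_le_mul_right _ (le_trans ?_ hG.ct)
  have h4 : C.vars.card ≤ 100 := (vars_card_le C).trans hs
  exact Nat.mul_le_mul (Nat.mul_le_mul_left _ (Nat.pow_le_pow_left hs 4))
    (Nat.pow_le_pow_right (by norm_num) h4)

theorem mp (hG : Good F M) {A B : Fm} {a b : ℕ} (h1 : Pf F (imp A B) (M ^ a))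
    (h2 : Pf F A (M ^ b)) : Pf F B (M ^ (max a b + 1)) := by
  have h := (pf_mp hG.hF).choose_spec A B _ _ h1 h2
  refine h.mono ?_
  have hc : cMP F = (pf_mp hG.hF).choose := by
    unfold cMP
    rw [dif_pos hG.hF]
  rw [← hc]
  have hM : 1 ≤ M := by have := hG.two; omega
  have e1 : M ^ a ≤ M ^ max a b := Nat.pow_le_pow_right hM (le_max_left _ _)
  have e2 : M ^ b ≤ M ^ max a b := Nat.pow_le_pow_right hM (le_max_right _ _)
  calc cMP F * M ^ a + M ^ b ≤ cMP F * M ^ max a b + M ^ max a b :=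
        Nat.add_le_add (Nat.mul_le_mul_left _ e1) e2
    _ = (cMP F + 1) * M ^ max a b := by ring
    _ ≤ M * M ^ max a b := Nat.mul_le_mul_right _ hG.cmp
    _ = M ^ (max a b + 1) := by rw [pow_succ, mul_comm]

theorem le_pow (hG : Good F M) {a b : ℕ} (h : a ≤ b) : M ^ a ≤ M ^ b :=
  Nat.pow_le_pow_right (by have := hG.two; omega) h

end Good

/-! ### sequents -/

/-- `AND Γ → A` has size at most `M` and a proof of size at most `M ^ e` -/
def Sq (F : List Rule) (M : ℕ) (Γ : List Fm) (A : Fm) (e : ℕ) : Prop :=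
  (imp (AND Γ) A).size ≤ M ∧ Pf F (imp (AND Γ) A) (M ^ e)

theorem AND_size (l : List Fm) : (AND l).size = psize l + l.length + 3 := by
  induction l with
  | nil => simp [AND, size, psize]
  | cons D Ds ih => simp only [AND, size, psize_cons, ih, List.length_cons]; omega

theorem OR_size (l : List Fm) : (OR l).size = psize l + l.length + 4 := by
  induction l with
  | nil => simp [OR, size, psize]
  | cons D Ds ih => simp only [OR, size, psize_cons, ih, List.length_cons]; omega

theorem AND_eval (v : ℕ → Prop) (l : List Fm) : (AND l).eval v ↔ ∀ A ∈ l, A.eval v := by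
  induction l with
  | nil => simp [AND, eval]
  | cons D Ds ih => simp [AND, eval, ih]

theorem OR_eval (v : ℕ → Prop) (l : List Fm) : (OR l).eval v ↔ ∃ A ∈ l, A.eval v := by
  induction l with
  | nil => simp [OR, eval]
  | cons D Ds ih => simp [OR, eval, ih]

theorem length_le_AND (l : List Fm) : l.length + 3 ≤ (AND l).size := by
  rw [AND_size]; omega

theorem mem_AND_size {l : List Fm} {A : Fm} (h : A ∈ l) : A.size + 4 ≤ (AND l).size := by
  rw [AND_size]
  have := size_le_psize h
  have : 1 ≤ l.length := List.length_pos_of_mem h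
  omega

theorem mem_OR_size {l : List Fm} {A : Fm} (h : A ∈ l) : A.size + 5 ≤ (OR l).size := by
  rw [OR_size]
  have := size_le_psize h
  have : 1 ≤ l.length := List.length_pos_of_mem h
  omega

section rules

variable {M : ℕ} (hG : Good F M)

include hG

/-- a template with one premise -/
theorem Good.t1 (A₁ B : Fm) (l : List Fm) (h : ∀ v : ℕ → Prop, A₁.eval v → B.eval v)
    (hs : A₁.size + B.size ≤ 90) {e : ℕ} (h1 : Pf F (A₁.subst (asg l)) (M ^ e))
    (hB : (B.subst (asg l)).size ≤ M ^ e) : Pf F (B.subst (asg l)) (M ^ (e + 2)) := by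
  have h2 := hG.taut (imp A₁ B) (fun v => h v) (by simp only [size]; omega) l (e := e) (by
    intro n hn
    simp only [vars, Finset.mem_union] at hn
    rcases hn with hn | hn
    · exact (size_le_subst hn).trans h1.size_le
    · exact (size_le_subst hn).trans hB)
  have h3 := hG.mp h2 h1
  exact h3.mono (hG.le_pow (by omega))

/-- a template with two premises -/
theorem Good.t2 (A₁ A₂ B : Fm) (l : List Fm)
    (h : ∀ v : ℕ → Prop, A₁.eval v → A₂.eval v → B.eval v)
    (hs : A₁.size + A₂.size + B.size ≤ 90) {e : ℕ} (h1 : Pf F (A₁.subst (asg l)) (M ^ e))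
    (h2 : Pf F (A₂.subst (asg l)) (M ^ e))
    (hB : (B.subst (asg l)).size ≤ M ^ e) : Pf F (B.subst (asg l)) (M ^ (e + 3)) := by
  have h3 := hG.taut (imp A₁ (imp A₂ B)) (fun v => h v) (by simp only [size]; omega) l
    (e := e) (by
    intro n hn
    simp only [vars, Finset.mem_union] at hn
    rcases hn with hn | hn | hn
    · exact (size_le_subst hn).trans h1.size_le
    · exact (size_le_subst hn).trans h2.size_le
    · exact (size_le_subst hn).trans hB)
  have h4 := hG.mp h3 h1
  have h5 := hG.mp h4 h2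
  exact h5.mono (hG.le_pow (by omega))

/-- a template with three premises -/
theorem Good.t3 (A₁ A₂ A₃ B : Fm) (l : List Fm)
    (h : ∀ v : ℕ → Prop, A₁.eval v → A₂.eval v → A₃.eval v → B.eval v)
    (hs : A₁.size + A₂.size + A₃.size + B.size ≤ 90) {e : ℕ}
    (h1 : Pf F (A₁.subst (asg l)) (M ^ e))
    (h2 : Pf F (A₂.subst (asg l)) (M ^ e)) (h3 : Pf F (A₃.subst (asg l)) (M ^ e))
    (hB : (B.subst (asg l)).size ≤ M ^ e) : Pf F (B.subst (asg l)) (M ^ (e + 4)) := by
  have h4 := hG.taut (imp A₁ (imp A₂ (imp A₃ B))) (fun v => h v) (by simp only [size]; omega) l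
    (e := e) (by
    intro n hn
    simp only [vars, Finset.mem_union] at hn
    rcases hn with hn | hn | hn | hn
    · exact (size_le_subst hn).trans h1.size_le
    · exact (size_le_subst hn).trans h2.size_le
    · exact (size_le_subst hn).trans h3.size_le
    · exact (size_le_subst hn).trans hB)
  have h5 := hG.mp h4 h1
  have h6 := hG.mp h5 h2
  have h7 := hG.mp h6 h3
  exact h7.mono (hG.le_pow (by omega))

end rules

end Pool.Agent.Y528.KL
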