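import Pool.Agent.TH677.EF.Can

/-!
# Frege proofs of the Kneser-Lovász theorem: basic definitions and three statements

* `Fr F D` (from `Pool.Agent.TH677.EF.Can`): the list `D` (last line first) is a proof in the
  Frege system `F`.
* `Pf F A m`: the formula `A` occurs in a proof of total size at most `m`.
* `AND`, `OR`: conjunctions and disjunctions of lists of formulas.
-/

set_option autoImplicit false

namespace Pool.Agent.Y528.KL

open Pool.Agent.H555R2.PF Pool.Agent.H555R2.PF.Fm Pool.Agent.TH677.EF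

/-- `A` is a line of a proof in the Frege system `F` of total size at most `m`. -/
def Pf (F : List Rule) (A : Fm) (m : ℕ) : Prop := ∃ D : List Fm, Fr F D ∧ A ∈ D ∧ psize D ≤ m

/-- the conjunction of a list of formulas (with a last conjunct `p₀ → p₀`) -/
def AND : List Fm → Fm
  | [] => imp (var 0) (var 0)
  | A :: l => and A (AND l)

/-- the disjunction of a list of formulas (with a last disjunct `¬ (p₀ → p₀)`) -/
def OR : List Fm → Fm
  | [] => neg (imp (var 0) (var 0))
  | A :: l => or A (OR l)

/-! ### the pigeonhole principle -/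

/-- every pigeon `a < P` sits in a hole `b < H` -/
def phpT (P H : ℕ) : Fm :=
  AND ((List.range P).map fun a => OR ((List.range H).map fun b => var (Nat.pair a b)))

/-- no two pigeons sit in the same hole -/
def phpI (P H : ℕ) : Fm :=
  AND ((List.range P).flatMap fun a => (List.range a).flatMap fun a' =>
    (List.range H).map fun b => neg (and (var (Nat.pair a b)) (var (Nat.pair a' b))))

/-- Frege systems have polynomial-size proofs of the pigeonhole principle (Buss). -/
def T_PHP : Prop := ∀ F : List Rule, IsFrege F → ∃ e : ℕ, ∀ P H : ℕ, H < P →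
  Pf F (neg (and (phpT P H) (phpI P H))) ((P + 2) ^ e)

/-! ### counting modulo `2 ^ L` -/

/-- Counting formulas: `cnt r` says that the number of true variables among `p₀, …, p_(2^L-1)` is
congruent to `r` modulo `2 ^ L`. -/
structure Cnt (F : List Rule) (e L : ℕ) (cnt : ℕ → Fm) : Prop where
  sem : ∀ (v : ℕ → Prop) (r : ℕ), r < 2 ^ L →
    ((cnt r).eval v ↔ {i : ℕ | i < 2 ^ L ∧ v i}.ncard % 2 ^ L = r)
  vars : ∀ r < 2 ^ L, ∀ x ∈ (cnt r).vars, x < 2 ^ L
  size : ∀ r < 2 ^ L, (cnt r).size ≤ 2 ^ (e * (L + 1))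
  excl : ∀ r s : ℕ, r < 2 ^ L → s < 2 ^ L → r ≠ s →
    Pf F (neg (and (cnt r) (cnt s))) (2 ^ (e * (L + 1)))
  add : ∀ r s : ℕ, r < 2 ^ L → s < 2 ^ L →
    Pf F (imp ((cnt r).subst fun i => var (2 * i))
      (imp ((cnt s).subst fun i => and (neg (var (2 * i))) (var (2 * i + 1)))
        ((cnt ((r + s) % 2 ^ L)).subst fun i => or (var (2 * i)) (var (2 * i + 1)))))
      (2 ^ (e * (L + 1)))

/-- counting formulas of polynomial size with polynomial-size proofs of their basic properties -/
def T_CNT : Prop := ∀ F : List Rule, IsFrege F → ∃ e : ℕ, ∀ L : ℕ, ∃ cnt : ℕ → Fm, Cnt F e L cnt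

/-! ### the Kneser-Lovász theorem -/

/-- If `n ≥ t + 2 k - 1` then for every colouring of the `k`-subsets of `{0, …, n-1}` with `t`
colours there are two disjoint `k`-subsets of the same colour. -/
def T_KN : Prop := ∀ k t n : ℕ, 1 ≤ k → t + 2 * k ≤ n + 1 → ∀ c : Finset ℕ → ℕ,
  (∀ S : Finset ℕ, S ⊆ Finset.range n → S.card = k → c S < t) →
  ∃ S T : Finset ℕ, S ⊆ Finset.range n ∧ T ⊆ Finset.range n ∧ S.card = k ∧ T.card = k ∧
    Disjoint S T ∧ c S = c T

end Pool.Agent.Y528.KL
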