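import Pool.Agent.Y528.KL.Sizes

/-!
# The basic facts
-/

set_option autoImplicit false

namespace Pool.Agent.Y528.KL

open Pool.Agent.H555R2.PF Pool.Agent.H555R2.PF.Fm Pool.Agent.TH677.EF

variable {F : List Rule} {M : ℕ}

/-- `P` bounds the sizes of all formulas -/
structure BS (k n m P : ℕ) : Prop where
  one : 1 ≤ P
  sHT : (HT k n m).size ≤ P
  sHI : (HI k n m).size ≤ P
  sHD : (HD k n m).size ≤ P
  scen : ∀ i z, (cen k n i z).size ≤ P
  sisStar : ∀ i, (isStar k n i).size ≤ P
  sctr : ∀ i z, (ctr k n i z).size ≤ P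
  sctrs : ∀ i, (OR ((List.range n).map fun z => ctr k n i z)).size ≤ P
  snctrs : ∀ x, (OR ((List.range m).map fun i => neg (neg (ctr k n i x)))).size ≤ P
  sncens : ∀ i, (AND ((List.range n).map fun z => neg (cen k n i z))).size ≤ P
  sctrm : ∀ x, (OR ((List.range m).map fun i => ctr k n i x)).size ≤ P
  sUf : ∀ x, (Uf k n m x).size ≤ P
  sUfs : ∀ T, (allof n (fun x => Uf k n m x) T).size ≤ P
  sL0 : ∀ i S, (L0 k n i S).size ≤ P
  sL1 : ∀ i x S, (L1 k n i x S).size ≤ P
  spvs : ∀ i (q : Finset ℕ → Bool), (OR (((subs k n).filter q).map fun S => pv S i)).size ≤ P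
  snpvs : ∀ i (q : Finset ℕ → Bool), (AND (((subs k n).filter q).map fun S => neg (pv S i))).size ≤ P
  snnpvs : ∀ i (q : Finset ℕ → Bool),
    (OR (((subs k n).filter q).map fun S => neg (neg (pv S i)))).size ≤ P
  spvm : ∀ S, (OR ((List.range m).map fun i => pv S i)).size ≤ P
  sL0s : ∀ i (q : Finset ℕ → Bool), (OR (((subs k n).filter q).map fun S => L0 k n i S)).size ≤ P
  sL1s : ∀ i x (q : Finset ℕ → Bool),
    (OR (((subs k n).filter q).map fun S => L1 k n i x S)).size ≤ P
  sinc0 : ∀ i a b x y, (inc0 k n i a b x y).size ≤ P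
  sinc : ∀ i h x y, (inc k n i h x y).size ≤ P
  sAdj : ∀ x y, (Adj k n m x y).size ≤ P
  sAdjs : ∀ T : Finset ℕ, (OR ((((List.range n).product (List.range n)).filter fun q =>
        q.1 ∈ T ∧ q.2 ∈ T ∧ q.1 ≠ q.2).map fun q => Adj k n m q.1 q.2)).size ≤ P

theorem bs (k n m : ℕ) (h : m ≤ n) : BS k n m ((n + 2) ^ (4 * k * k + 2 * k + 40)) := by
  have hf : ∀ q : Finset ℕ → Bool, ((subs k n).filter q).length ≤ (n + 2) ^ k := fun q =>
    (List.length_filter_le _ _).trans (subs_length k n)
  have e1 : k ≤ 4 * k * k + 2 * k := by nlinarith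
  have e2 : 2 * k * k ≤ 4 * k * k := by nlinarith
  refine ⟨pw_pos _ _, (HT_pow h).trans (pw_mono n (by omega)),
    (HI_pow h).trans (pw_mono n (by omega)), (HD_pow h).trans (pw_mono n (by omega)),
    fun i z => (cen_pow i z).trans (pw_mono n (by omega)),
    fun i => (isStar_pow i).trans (pw_mono n (by omega)),
    fun i z => (ctr_pow i z).trans (pw_mono n (by omega)), ?_, ?_, ?_, ?_,
    fun x => (Uf_pow h x).trans (pw_mono n (by omega)), ?_,
    fun i S => (L0_pow i S).trans (pw_mono n (by omega)),
    fun i x S => (L1_pow i x S).trans (pw_mono n (by omega)), ?_, ?_, ?_, ?_, ?_, ?_,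
    fun i a b x y => (inc0_pow i a b x y).trans (pw_mono n (by omega)),
    fun i h x y => (inc_pow i h x y).trans (pw_mono n (by omega)),
    fun x y => (Adj_pow h x y).trans (pw_mono n (by omega)), ?_⟩
  · intro i
    exact OR_pow (a := 1) (b := k + 8) (range_length_le le_rfl) (fun z _ => ctr_pow i z) (by omega)
  · intro x
    exact OR_pow (a := 1) (b := k + 10) (range_length_le h)
      (fun i _ => neg_pow (neg_pow (ctr_pow i x) le_rfl) (by omega)) (by omega)
  · intro i
    exact AND_pow (a := 1) (b := k + 5) (range_length_le le_rfl)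
      (fun z _ => neg_pow (cen_pow i z) le_rfl) (by omega)
  · intro x
    exact OR_pow (a := 1) (b := k + 8) (range_length_le h) (fun i _ => ctr_pow i x) (by omega)
  · intro T
    exact allof_pow (fun x _ => Uf_pow h x) T (by omega)
  · intro i q
    exact OR_pow (a := k) (b := 0) (hf q) (fun i _ => by simp [pv_size]) (by omega)
  · intro i q
    exact AND_pow (a := k) (b := 1) (hf q)
      (fun i _ => by simp only [size, pv_size, pow_one]; omega) (by omega)
  · intro i q
    exact OR_pow (a := k) (b := 2) (hf q)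
      (fun i _ => neg_pow (b := 1) (by simp only [size, pv_size, pow_one]; omega) (by omega))
      (by omega)
  · intro S
    exact OR_pow (a := 1) (b := 0) (range_length_le h) (fun i _ => by simp [pv_size]) (by omega)
  · intro i q
    exact OR_pow (a := k) (b := k + 3) (hf q) (fun S _ => L0_pow i S) (by omega)
  · intro i x q
    exact OR_pow (a := k) (b := k + 3) (hf q) (fun S _ => L1_pow i x S) (by omega)
  · intro T
    exact OR_pow (a := 2) (b := 2 * k * k + 2 * k + 17) (pairs_length n _)
      (fun q _ => Adj_pow h _ _) (by omega)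

/-- the standard bound -/
theorem base {k n m M : ℕ} (hk : 1 ≤ k) (hmn : m + 2 * k ≤ n + 1)
    (hM : (n + 2) ^ (4 * k * k + 2 * k + 50) ≤ M) : ∃ P, BS k n m P ∧ 1024 * P ≤ M :=
  ⟨_, bs k n m (by omega), by
    have := big (a := 4 * k * k + 2 * k + 40) hM 10 (by omega)
    simpa using this⟩

theorem t_f6a (F : List Rule) (k : ℕ) : T_F6a F k := by
  intro hk
  refine ⟨20, 4 * k * k + 2 * k + 50, fun n m M hmn hG hM i z hz => ?_⟩
  obtain ⟨P, B, hP⟩ := base hk hmn hM
  have b1 := B.one
  have b2 := B.sctr i z
  have b3 := B.sisStar i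
  have hs : (AND [ctr k n i z]).size = (ctr k n i z).size + 4 := by simp only [AND, size]
  have h1 : Sq F M [ctr k n i z] (ctr k n i z) 4 := Sq.hyp hG (by simp) (by omega)
  exact (Sq.ORI (l := List.range n) (f := fun z => cen k n i z) hG (Sq.andL hG h1)
    (List.mem_range.2 hz) (by
      change _ + (isStar k n i).size + 1 ≤ M
      omega)).up hG (by omega)

theorem t_f6b (F : List Rule) (k : ℕ) : T_F6b F k := by
  intro hk
  refine ⟨20, 4 * k * k + 2 * k + 50, fun n m M hmn hG hM i z z' hz hz' hne => ?_⟩
  obtain ⟨P, B, hP⟩ := base hk hmn hM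
  have b1 := B.one
  have b2 := B.sctr i z
  have b3 := B.sctr i z'
  exact Sq.least_unique hG List.nodup_range (List.mem_range.2 hz) (List.mem_range.2 hz') hne (by
    change 2 * (ctr k n i z).size + 2 * (ctr k n i z').size + 20 ≤ M
    omega)

theorem t_f7 (F : List Rule) (k : ℕ) : T_F7 F k := by
  intro hk
  refine ⟨70, 4 * k * k + 2 * k + 50, fun n m M hmn hG hM x hx => ?_⟩
  obtain ⟨P, B, hP⟩ := base hk hmn hM
  have b1 := B.one
  have b2 := B.sUf x
  have b3 := B.snctrs x
  have b4 := B.sctrm x
  have hs : (AND [neg (Uf k n m x)]).size = (Uf k n m x).size + 5 := by simp only [AND, size]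
  have h1 : Sq F M [neg (Uf k n m x)] (neg (Uf k n m x)) 4 := Sq.hyp hG (by simp) (by
    simp only [size]; omega)
  have h2 := Sq.NANDE (l := List.range m) (f := fun i => neg (ctr k n i x)) hG h1 (by
    change _ + (Uf k n m x).size + 2 * _ + 20 ≤ M
    omega)
  refine (Sq.ORE (l := List.range m) (f := fun i => neg (neg (ctr k n i x))) hG (b := 20) h2
    (fun i hi => ?_) (by omega)).up hG (by omega)
  have b5 := B.sctr i x
  have hs2 : (AND [neg (neg (ctr k n i x)), neg (Uf k n m x)]).size =
      (ctr k n i x).size + (Uf k n m x).size + 8 := by simp only [AND, size]; omega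
  have h3 : Sq F M [neg (neg (ctr k n i x)), neg (Uf k n m x)] (neg (neg (ctr k n i x))) 4 :=
    Sq.hyp hG (by simp) (by simp only [size]; omega)
  exact (Sq.ORI (l := List.range m) (f := fun i => ctr k n i x) hG (Sq.dneg hG h3) hi (by
    omega)).up hG (by omega)

theorem t_f1 (F : List Rule) (k : ℕ) : T_F1 F k := by
  intro hk
  refine ⟨150, 4 * k * k + 2 * k + 50, fun n m M hmn hG hM T i hT hi => ?_⟩
  obtain ⟨P, B, hP⟩ := base hk hmn hM
  have b1 := B.one
  have b2 := B.sUfs T
  have b3 := B.sisStar i
  have b4 := B.sctrs i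
  have b5 := B.sncens i
  refine (Sq.negI hG (e := 130) ?_).up hG (by omega)
  set U := allof n (fun x => Uf k n m x) T with hU
  have hs : (AND [isStar k n i, pv T i, U]).size = (isStar k n i).size + U.size + 7 := by
    simp only [AND, size, pv_size]; omega
  have h1 : Sq F M [isStar k n i, pv T i, U] (isStar k n i) 4 := Sq.hyp hG (by simp) (by omega)
  have h2 : Sq F M [isStar k n i] (OR ((List.range n).map fun z => ctr k n i z)) 100 :=
    Sq.least_exists hG List.nodup_range (by
      change 3 * (isStar k n i).size + 3 * _ + 3 * _ + 30 ≤ M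
      have b4' : (OR ((List.range n).map fun a => Least (List.range n)
        (fun z => cen k n i z) a)).size ≤ P := b4
      omega)
  have h3 := Sq.trans hG h1 h2 (by omega)
  refine (Sq.ORE (l := List.range n) (f := fun z => ctr k n i z) hG (b := 20) h3
    (fun z hz => ?_) (by rw [FF_size]; omega)).up hG (by omega)
  have b6 := B.sctr i z
  have b7 := B.sUf z
  have hs2 : (AND (ctr k n i z :: [isStar k n i, pv T i, U])).size =
      (ctr k n i z).size + (isStar k n i).size + U.size + 8 := by
    simp only [AND, size, pv_size]; omega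
  have h4 : Sq F M (ctr k n i z :: [isStar k n i, pv T i, U]) (ctr k n i z) 4 :=
    Sq.hyp hG (by simp) (by omega)
  by_cases hzT : z ∈ T
  · have h5 : Sq F M (ctr k n i z :: [isStar k n i, pv T i, U]) U 4 :=
      Sq.hyp hG (by simp) (by omega)
    have h6 := Sq.ANDE (l := (List.range n).filter fun y => y ∈ T)
      (f := fun x => Uf k n m x) hG h5 (x := z) (by simp [hzT, List.mem_range.1 hz])
    have h7 := Sq.ANDE (l := List.range m) (f := fun i => neg (ctr k n i z)) hG h6 (x := i)
      (List.mem_range.2 hi)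
    exact (Sq.contraF hG h4 h7 (by omega)).up hG (by omega)
  · have h5 : Sq F M (ctr k n i z :: [isStar k n i, pv T i, U]) (pv T i) 4 :=
      Sq.hyp hG (by simp) (by rw [pv_size]; omega)
    have h6 := Sq.ANDE (l := (subs k n).filter fun S => z ∉ S)
      (f := fun S => neg (pv S i)) hG (Sq.andL hG h4) (x := T) (by simp [hzT, hT])
    exact (Sq.contraF hG h5 h6 (by omega)).up hG (by omega)

/-- from `¬ cen x` to a set of colour `i` that does not contain `x` -/
theorem cen_aux (hG : Good F M) {k n m P : ℕ} (B : BS k n m P) (hP : 1024 * P ≤ M) {i x : ℕ}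
    (hx : x < n) : Sq F M [neg (isStar k n i)]
      (OR (((subs k n).filter fun S => x ∉ S).map fun S => pv S i)) 70 := by
  have b1 := B.one
  have b2 := B.sisStar i
  have b3 := B.scen i x
  have b4 := B.spvs i fun S => x ∉ S
  have b5 := B.snpvs i fun S => x ∉ S
  have b6 := B.snnpvs i fun S => x ∉ S
  have hs : (AND [neg (isStar k n i)]).size = (isStar k n i).size + 5 := by
    simp only [AND, size]
  have h1 : Sq F M [neg (isStar k n i)] (neg (isStar k n i)) 4 := Sq.hyp hG (by simp) (by
    simp only [size]; omega)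
  have h2 := Sq.NORE (l := List.range n) (f := fun z => cen k n i z) hG h1 (x := x)
    (List.mem_range.2 hx)
  have h3 := Sq.NANDE (l := (subs k n).filter fun S => x ∉ S) (f := fun S => neg (pv S i)) hG h2
    (by omega)
  refine (Sq.ORE (l := (subs k n).filter fun S => x ∉ S) (f := fun S => neg (neg (pv S i))) hG
    (b := 20) h3 (fun S hS => ?_) (by omega)).up hG (by omega)
  have hs2 : (AND [neg (neg (pv S i)), neg (isStar k n i)]).size = (isStar k n i).size + 9 := by
    simp only [AND, size, pv_size]; omega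
  have h4 : Sq F M [neg (neg (pv S i)), neg (isStar k n i)] (neg (neg (pv S i))) 4 :=
    Sq.hyp hG (by simp) (by simp only [size, pv_size]; omega)
  have h5 := Sq.dneg hG h4
  have h6 : Sq F M [neg (neg (pv S i)), neg (isStar k n i)]
      (OR (((subs k n).filter fun S => x ∉ S).map fun S => pv S i)) 11 :=
    Sq.ORI (f := fun S => pv S i) hG h5 hS (by omega)
  exact h6.up hG (by omega)

theorem t_f2b (F : List Rule) (k : ℕ) : T_F2b F k := by
  intro hk
  refine ⟨110, 4 * k * k + 2 * k + 50, fun n m M hmn hG hM i x hi hx => ?_⟩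
  obtain ⟨P, B, hP⟩ := base hk hmn hM
  have b1 := B.one
  have b2 := B.sisStar i
  have b4 := B.spvs i fun S => x ∉ S
  have b5 := B.snpvs i fun S => x ∉ S
  have b6 := B.sL1s i x fun S => x ∉ S
  have hs : (AND [neg (isStar k n i)]).size = (isStar k n i).size + 5 := by
    simp only [AND, size]
  have h1 := cen_aux hG B hP (i := i) hx
  have h2 := Sq.least_exists (l := (subs k n).filter fun S => x ∉ S) (P := fun S => pv S i) hG
    ((subs_nodup k n).filter _) (by
      have b6' : (OR (((subs k n).filter fun S => x ∉ S).map fun a =>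
        Least ((subs k n).filter fun S => x ∉ S) (fun S => pv S i) a)).size ≤ P := b6
      omega)
  exact (Sq.trans hG h1 h2 (by
    change _ + (OR (((subs k n).filter fun S => x ∉ S).map fun S => L1 k n i x S)).size + 1 ≤ M
    omega)).up hG (by omega)

theorem t_f2a (F : List Rule) (k : ℕ) : T_F2a F k := by
  intro hk
  refine ⟨120, 4 * k * k + 2 * k + 50, fun n m M hmn hG hM i hi => ?_⟩
  obtain ⟨P, B, hP⟩ := base hk hmn hM
  have hn : 0 < n := by omega
  have hft : (subs k n).filter (fun _ => true) = subs k n := List.filter_true _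
  have b1 := B.one
  have b2 := B.sisStar i
  have b3 := B.spvs i fun S => 0 ∉ S
  have b4 := B.spvs i fun S => true
  have b5 := B.snpvs i fun S => true
  have b6 := B.sL0s i fun S => true
  rw [hft] at b4 b5 b6
  have hs : (AND [neg (isStar k n i)]).size = (isStar k n i).size + 5 := by
    simp only [AND, size]
  have h1 := cen_aux hG B hP (i := i) hn
  have h2 : Sq F M [neg (isStar k n i)] (OR ((subs k n).map fun S => pv S i)) 90 := by
    refine (Sq.ORE (l := (subs k n).filter fun S => 0 ∉ S) (f := fun S => pv S i) hG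
      (b := 20) h1 (fun S hS => ?_) (by omega)).up hG (by omega)
    have hs2 : (AND [pv S i, neg (isStar k n i)]).size = (isStar k n i).size + 7 := by
      simp only [AND, size, pv_size]; omega
    have h4 : Sq F M [pv S i, neg (isStar k n i)] (pv S i) 4 :=
      Sq.hyp hG (by simp) (by simp only [pv_size]; omega)
    exact (Sq.ORI (l := subs k n) (f := fun S => pv S i) hG h4
      (List.mem_of_mem_filter hS) (by omega)).up hG (by omega)
  have h3 := Sq.least_exists (l := subs k n) (P := fun S => pv S i) hG (subs_nodup k n) (by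
      have b6' : (OR ((subs k n).map fun a =>
        Least (subs k n) (fun S => pv S i) a)).size ≤ P := b6
      omega)
  exact (Sq.trans hG h2 h3 (by
    change _ + (OR ((subs k n).map fun S => L0 k n i S)).size + 1 ≤ M
    omega)).up hG (by omega)

theorem inc0_nstar (hG : Good F M) {k n m P : ℕ} (B : BS k n m P) (hP : 1024 * P ≤ M)
    (i a b x y : ℕ) : Sq F M [inc0 k n i a b x y] (neg (isStar k n i)) 10 := by
  have b1 := B.one
  have b2 := B.sinc0 i a b x y
  have hs : (AND [inc0 k n i a b x y]).size = (inc0 k n i a b x y).size + 4 := by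
    simp only [AND, size]
  have h1 : Sq F M [inc0 k n i a b x y] (inc0 k n i a b x y) 4 :=
    Sq.hyp hG (by simp) (by omega)
  exact (Sq.andL hG h1).up hG (by omega)

theorem t_f5 (F : List Rule) (k : ℕ) : T_F5 F k := by
  intro hk
  refine ⟨10, 4 * k * k + 2 * k + 50, fun n m M hmn hG hM i h x y hi hh hx hy => ?_⟩
  obtain ⟨P, B, hP⟩ := base hk hmn hM
  unfold inc
  split_ifs
  · exact inc0_nstar hG B hP _ _ _ _ _
  · exact inc0_nstar hG B hP _ _ _ _ _

theorem posn_inj {S : Finset ℕ} {x y : ℕ} (hx : x ∈ S) (hy : y ∈ S) (h : posn S x = posn S y) :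
    x = y := by
  rcases lt_trichotomy x y with hl | hl | hl
  · exfalso
    have h1 : (S.filter fun z => z < x) ⊂ (S.filter fun z => z < y) := by
      rw [Finset.ssubset_iff_of_subset (fun z hz => by
        simp only [Finset.mem_filter] at hz ⊢; exact ⟨hz.1, by omega⟩)]
      exact ⟨x, by simp [hx, hl], by simp⟩
    have := Finset.card_lt_card h1
    unfold posn at h
    omega
  · exact hl
  · exfalso
    have h1 : (S.filter fun z => z < y) ⊂ (S.filter fun z => z < x) := by
      rw [Finset.ssubset_iff_of_subset (fun z hz => by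
        simp only [Finset.mem_filter] at hz ⊢; exact ⟨hz.1, by omega⟩)]
      exact ⟨y, by simp [hy, hl], by simp⟩
    have := Finset.card_lt_card h1
    unfold posn at h
    omega

theorem posn_lt {S : Finset ℕ} {x : ℕ} (hx : x ∈ S) : posn S x < S.card := by
  refine Finset.card_lt_card ?_
  rw [Finset.ssubset_iff_of_subset (Finset.filter_subset _ _)]
  exact ⟨x, hx, by simp⟩

theorem inc0_unique (hG : Good F M) {k n m P : ℕ} (B : BS k n m P) (hP : 1024 * P ≤ M)
    (i a b x y x' y' : ℕ) (hne : (x, y) ≠ (x', y')) :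
    Sq F M [inc0 k n i a b x y, inc0 k n i a b x' y'] FF 120 := by
  have b1 := B.one
  have b2 := B.sinc0 i a b x y
  have b3 := B.sinc0 i a b x' y'
  set A := inc0 k n i a b x y with hA
  set A' := inc0 k n i a b x' y' with hA'
  have hs : (AND [A, A']).size = A.size + A'.size + 5 := by
    simp only [AND, size]; omega
  have h1 : Sq F M [A, A'] A 4 := Sq.hyp hG (by simp) (by omega)
  have h2 : Sq F M [A, A'] A' 4 := Sq.hyp hG (by simp) (by omega)
  have h3 := Sq.andL hG (Sq.andR hG h1)
  have h4 := Sq.andL hG (Sq.andR hG h2)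
  refine (Sq.ORE hG (b := 100) h3 (fun S hS => ?_) (by rw [FF_size]; omega)).up hG (by omega)
  have b4 := B.sL0 i S
  have hs2 : (AND (L0 k n i S :: [A, A'])).size = (L0 k n i S).size + A.size + A'.size + 6 := by
    simp only [AND, size]; omega
  have h5 : Sq F M (L0 k n i S :: [A, A']) (OR (((subs k n).filter fun S => x' ∈ S ∧
      posn S x' = a).map fun S => L0 k n i S)) 18 := by
    have b5 := B.sL0s i fun S => x' ∈ S ∧ posn S x' = a
    exact (Sq.weak hG h4 (by intro Y hY; simp at hY ⊢; tauto) (by omega)).up hG (by omega)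
  refine (Sq.ORE hG (b := 85) h5 (fun S' hS' => ?_) (by rw [FF_size]; omega)).up hG (by omega)
  have b6 := B.sL0 i S'
  have hs3 : (AND (L0 k n i S' :: L0 k n i S :: [A, A'])).size =
      (L0 k n i S').size + (L0 k n i S).size + A.size + A'.size + 7 := by
    simp only [AND, size]; omega
  simp only [List.mem_filter, decide_eq_true_eq] at hS hS'
  by_cases hSS : S' = S
  · subst hSS
    have hxx : x = x' := posn_inj hS.2.1 hS'.2.1 (by rw [hS.2.2, hS'.2.2])
    subst hxx
    have hyy : y ≠ y' := fun h => hne (by rw [h])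
    have h6 := Sq.andR hG (Sq.andR hG h1)
    have h7 := Sq.andR hG (Sq.andR hG h2)
    have h6' : Sq F M (L0 k n i S' :: L0 k n i S' :: [A, A']) (OR (((subs k n).filter
        fun S => x ∉ S ∧ y ∈ S ∧ posn S y = b).map fun S => L1 k n i x S)) 18 := by
      have b5 := B.sL1s i x fun S => x ∉ S ∧ y ∈ S ∧ posn S y = b
      exact (Sq.weak hG h6 (by intro Y hY; simp at hY ⊢; tauto) (by omega)).up hG (by omega)
    refine (Sq.ORE hG (b := 70) h6' (fun R hR => ?_) (by rw [FF_size]; omega)).up hG (by omega)
    have b7 := B.sL1 i x R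
    have hs4 : (AND (L1 k n i x R :: L0 k n i S' :: L0 k n i S' :: [A, A'])).size =
        (L1 k n i x R).size + (L0 k n i S').size + (L0 k n i S').size + A.size + A'.size + 8 := by
      simp only [AND, size]; omega
    have h7' : Sq F M (L1 k n i x R :: L0 k n i S' :: L0 k n i S' :: [A, A'])
        (OR (((subs k n).filter
        fun S => x ∉ S ∧ y' ∈ S ∧ posn S y' = b).map fun S => L1 k n i x S)) 18 := by
      have b5 := B.sL1s i x fun S => x ∉ S ∧ y' ∈ S ∧ posn S y' = b
      exact (Sq.weak hG h7 (by intro Y hY; simp at hY ⊢; tauto) (by omega)).up hG (by omega)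
    refine (Sq.ORE hG (b := 50) h7' (fun R' hR' => ?_) (by rw [FF_size]; omega)).up hG (by omega)
    have b8 := B.sL1 i x R'
    have hs5 : (AND (L1 k n i x R' :: L1 k n i x R :: L0 k n i S' :: L0 k n i S' ::
        [A, A'])).size = (L1 k n i x R').size + (L1 k n i x R).size + (L0 k n i S').size +
          (L0 k n i S').size + A.size + A'.size + 9 := by
      simp only [AND, size]; omega
    simp only [List.mem_filter, decide_eq_true_eq] at hR hR'
    have hRR : R' ≠ R := by
      rintro rfl
      exact hyy (posn_inj hR.2.2.1 hR'.2.2.1 (by rw [hR.2.2.2, hR'.2.2.2]))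
    have h8 := Sq.least_unique (l := (subs k n).filter fun S => x ∉ S) (P := fun S => pv S i) hG
      ((subs_nodup k n).filter _) (a := R') (b := R) (by simp [hR'.1, hR'.2.1])
      (by simp [hR.1, hR.2.1]) hRR (by
        change 2 * (L1 k n i x R').size + 2 * (L1 k n i x R).size + 20 ≤ M
        omega)
    exact (Sq.weak hG h8 (by
      intro Y hY
      simp only [List.mem_cons, List.not_mem_nil, or_false] at hY
      rcases hY with rfl | rfl
      · exact List.mem_cons_self
      · exact List.mem_cons_of_mem _ List.mem_cons_self) (by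
        rw [FF_size]; omega)).up hG (by omega)
  · have h8 := Sq.least_unique (l := subs k n) (P := fun S => pv S i) hG
      (subs_nodup k n) (a := S') (b := S) hS'.1 hS.1 hSS (by
        change 2 * (L0 k n i S').size + 2 * (L0 k n i S).size + 20 ≤ M
        omega)
    exact (Sq.weak hG h8 (by
      intro Y hY
      simp only [List.mem_cons, List.not_mem_nil, or_false] at hY
      rcases hY with rfl | rfl
      · exact List.mem_cons_self
      · exact List.mem_cons_of_mem _ List.mem_cons_self) (by
        rw [FF_size]; omega)).up hG (by omega)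

theorem t_f4 (F : List Rule) (k : ℕ) : T_F4 F k := by
  intro hk
  refine ⟨120, 4 * k * k + 2 * k + 50,
    fun n m M hmn hG hM i h x y x' y' hi hh hx hy hx' hy' hne => ?_⟩
  obtain ⟨P, B, hP⟩ := base hk hmn hM
  unfold inc
  split_ifs
  · exact inc0_unique hG B hP _ _ _ _ _ _ _ hne
  · exact inc0_unique hG B hP _ _ _ _ _ _ _ (fun h => hne (by
      rw [Prod.mk.injEq] at h ⊢; exact ⟨h.2, h.1⟩))

end Pool.Agent.Y528.KL
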