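import Pool.Agent.Y528.KL.Facts

/-!
# A `k`-subset of `U` contains an edge
-/

set_option autoImplicit false

namespace Pool.Agent.Y528.KL

open Pool.Agent.H555R2.PF Pool.Agent.H555R2.PF.Fm Pool.Agent.TH677.EF

variable {F : List Rule} {M : ℕ}

/-- a colour that is no star has an edge at the right place -/
theorem inc_eq {k n i a b x y : ℕ} (hk : 1 ≤ k) (hb : b < k) :
    inc k n i (2 * (a * k + b)) x y = inc0 k n i a b x y := by
  unfold inc
  have h1 : 2 * (a * k + b) % 2 = 0 := by omega
  have h2 : 2 * (a * k + b) / 2 = a * k + b := by omega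
  have h3 : (a * k + b) / k = a := by
    rw [add_comm, Nat.add_mul_div_right _ _ (by omega), Nat.div_eq_of_lt hb, zero_add]
  have h4 : (a * k + b) % k = b := by
    rw [add_comm, Nat.add_mul_mod_self_right, Nat.mod_eq_of_lt hb]
  rw [if_pos h1, h2, h3, h4]

theorem t_f3 (F : List Rule) (k : ℕ) : T_F3 F k := by
  intro hk
  obtain ⟨e1, K1, f1⟩ := t_f1 F k hk
  obtain ⟨e2, K2, f2⟩ := t_f2a F k hk
  obtain ⟨e3, K3, f3⟩ := t_f2b F k hk
  refine ⟨e1 + e2 + e3 + 200, 4 * k * k + 2 * k + 50 + K1 + K2 + K3,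
    fun n m M hmn hG hM T hT => ?_⟩
  obtain ⟨P, B, hP⟩ := base hk hmn ((pw_mono n (by omega)).trans hM)
  have f1 := f1 n m M hmn hG ((pw_mono n (by omega)).trans hM)
  have f2 := f2 n m M hmn hG ((pw_mono n (by omega)).trans hM)
  have f3 := f3 n m M hmn hG ((pw_mono n (by omega)).trans hM)
  have b1 := B.one
  have b2 := B.sUfs T
  have b3 := B.sHT
  have b4 := B.sHI
  have b5 := B.sAdjs T
  set O := OR ((((List.range n).product (List.range n)).filter fun q =>
        q.1 ∈ T ∧ q.2 ∈ T ∧ q.1 ≠ q.2).map fun q => Adj k n m q.1 q.2) with hO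
  set U := allof n (fun x => Uf k n m x) T with hU
  have hs0 : (AND [U, HT k n m, HI k n m]).size =
      U.size + (HT k n m).size + (HI k n m).size + 6 := by
    simp only [AND, size]; omega
  have h0 : Sq F M [U, HT k n m, HI k n m] (HT k n m) 4 := Sq.hyp hG (by simp) (by omega)
  have h1 := Sq.ANDE hG h0 hT
  refine (Sq.ORE hG (b := e1 + e2 + e3 + 188) h1 (fun i hi => ?_) (by omega)).up hG (by omega)
  have hi' := List.mem_range.1 hi
  have b6 := B.sisStar i
  have hs1 : (AND (pv T i :: [U, HT k n m, HI k n m])).size =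
      U.size + (HT k n m).size + (HI k n m).size + 8 := by
    simp only [AND, size, pv_size]; omega
  have h2 : Sq F M (pv T i :: [U, HT k n m, HI k n m]) (neg (isStar k n i)) (e1 + 20) :=
    (Sq.weak hG (f1 T i hT hi') (by
      intro Y hY
      simp only [List.mem_cons, List.not_mem_nil, or_false] at hY ⊢
      tauto) (by simp only [size]; omega)).up hG (by omega)
  have b7 := B.sL0s i fun _ => true
  rw [List.filter_true] at b7
  have h3 := Sq.trans hG h2 (f2 i hi') (by omega)
  refine (Sq.ORE hG (b := e1 + e2 + e3 + 170) h3 (fun S hS => ?_) (by omega)).up hG (by omega)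
  have b8 := B.sL0 i S
  have hs2 : (AND (L0 k n i S :: pv T i :: [U, HT k n m, HI k n m])).size =
      (L0 k n i S).size + U.size + (HT k n m).size + (HI k n m).size + 9 := by
    simp only [AND, size, pv_size]; omega
  have h4 : Sq F M (L0 k n i S :: pv T i :: [U, HT k n m, HI k n m]) (L0 k n i S) 4 :=
    Sq.hyp hG (by simp) (by omega)
  have h5 : Sq F M (L0 k n i S :: pv T i :: [U, HT k n m, HI k n m]) (pv S i) 7 :=
    Sq.least_prop (l := subs k n) (P := fun S => pv S i) (a := S) hG h4
  have h6 : Sq F M (L0 k n i S :: pv T i :: [U, HT k n m, HI k n m]) (pv T i) 4 :=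
    Sq.hyp hG (by simp) (by rw [pv_size]; omega)
  have h7 : Sq F M (L0 k n i S :: pv T i :: [U, HT k n m, HI k n m]) (HI k n m) 4 :=
    Sq.hyp hG (by simp) (by omega)
  by_cases hd : Disjoint S T
  · have h8 := Sq.ANDE hG h7 (x := (S, T)) (by
      rw [disj, List.mem_filter]
      exact ⟨List.mem_product.2 ⟨hS, hT⟩, by simpa using hd⟩)
    have h9 := Sq.ANDE (l := List.range m) hG h8 hi
    exact (Sq.contra hG (Sq.andI hG h5 h6 (by simp only [pv_size]; omega)) h9 (by
      omega)).up hG (by omega)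
  obtain ⟨x, hxS, hxT⟩ := Finset.not_disjoint_iff.1 hd
  have hxn : x < n := Finset.mem_range.1 ((mem_subs.1 hT).1 hxT)
  have b9 := B.sL1s i x fun S => x ∉ S
  have h8 : Sq F M (L0 k n i S :: pv T i :: [U, HT k n m, HI k n m]) (neg (isStar k n i))
      (e1 + 25) := (Sq.weak hG h2 (by
      intro Y hY
      exact List.mem_cons_of_mem _ hY) (by simp only [size]; omega)).up hG (by omega)
  have h9 := Sq.trans hG h8 (f3 i x hi' hxn) (by omega)
  refine (Sq.ORE hG (b := e1 + e2 + e3 + 150) h9 (fun S' hS' => ?_) (by omega)).up hG (by omega)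
  have b10 := B.sL1 i x S'
  simp only [List.mem_filter, decide_eq_true_eq] at hS'
  set Γ := L1 k n i x S' :: L0 k n i S :: pv T i :: [U, HT k n m, HI k n m] with hΓ
  have hs3 : (AND Γ).size = (L1 k n i x S').size +
      (L0 k n i S).size + U.size + (HT k n m).size + (HI k n m).size + 10 := by
    simp only [hΓ, AND, size, pv_size]; omega
  have g1 : Sq F M Γ (L1 k n i x S') 4 := Sq.hyp hG (by simp [hΓ]) (by omega)
  have g2 : Sq F M Γ (pv S' i) 7 := Sq.andL (A := pv S' i) hG g1
  have g3 : Sq F M Γ (pv T i) 4 := Sq.hyp hG (by simp [hΓ]) (by rw [pv_size]; omega)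
  by_cases hd' : Disjoint S' T
  · have g4 : Sq F M Γ (HI k n m) 4 := Sq.hyp hG (by simp [hΓ]) (by omega)
    have g5 := Sq.ANDE hG g4 (x := (S', T)) (by
      rw [disj, List.mem_filter]
      exact ⟨List.mem_product.2 ⟨hS'.1, hT⟩, by simpa using hd'⟩)
    have g6 := Sq.ANDE (l := List.range m) hG g5 hi
    exact (Sq.contra hG (Sq.andI hG g2 g3 (by simp only [pv_size]; omega)) g6 (by
      omega)).up hG (by omega)
  obtain ⟨y, hyS, hyT⟩ := Finset.not_disjoint_iff.1 hd'
  have hyn : y < n := Finset.mem_range.1 ((mem_subs.1 hT).1 hyT)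
  have hxy : x ≠ y := by
    rintro rfl
    exact hS'.2 hyS
  have b11 := B.sinc0 i (posn S x) (posn S' y) x y
  have b12 := B.sAdj x y
  have b13 := B.sL0s i fun S'' => x ∈ S'' ∧ posn S'' x = posn S x
  have b14 := B.sL1s i x fun S'' => x ∉ S'' ∧ y ∈ S'' ∧ posn S'' y = posn S' y
  have g5 : Sq F M Γ (neg (isStar k n i)) (e1 + 30) := (Sq.weak hG h8 (by
      intro Y hY
      exact List.mem_cons_of_mem _ hY) (by simp only [size]; omega)).up hG (by omega)
  have g6 : Sq F M Γ (L0 k n i S) 4 := Sq.hyp hG (by simp [hΓ]) (by omega)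
  have g7 : Sq F M Γ (OR (((subs k n).filter fun S'' => x ∈ S'' ∧ posn S'' x = posn S x).map
      fun S => L0 k n i S)) 8 :=
    Sq.ORI (x := S) (f := fun S => L0 k n i S) hG g6 (by simp [hS, hxS]) (by omega)
  have g8 : Sq F M Γ (OR (((subs k n).filter fun S'' => x ∉ S'' ∧ y ∈ S'' ∧
      posn S'' y = posn S' y).map fun S => L1 k n i x S)) 8 :=
    Sq.ORI (x := S') (f := fun S => L1 k n i x S) hG g1 (by simp [hS'.1, hS'.2, hyS])
      (by omega)
  have g9 : Sq F M Γ (inc0 k n i (posn S x) (posn S' y) x y) (e1 + 40) := by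
    unfold inc0
    exact (Sq.andI hG g5 (Sq.andI hG g7 g8 (by omega)) (by simp only [size]; omega)).up hG
      (by omega)
  have hkx : posn S x < k := by
    have := posn_lt hxS
    rwa [(mem_subs.1 hS).2] at this
  have hky : posn S' y < k := by
    have := posn_lt hyS
    rwa [(mem_subs.1 hS'.1).2] at this
  rw [← inc_eq hk hky] at g9
  have hslot : (i, 2 * (posn S x * k + posn S' y)) ∈ slots k m := by
    rw [slots]
    refine List.mem_product.2 ⟨hi, List.mem_range.2 ?_⟩
    have : posn S x * k + posn S' y < k * k := by nlinarith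
    have h' : 2 * k * k = 2 * (k * k) := by ring
    omega
  have g10 : Sq F M Γ (Adj k n m x y) (e1 + 44) :=
    (Sq.ORI (l := slots k m) (f := fun s => inc k n s.1 s.2 x y)
      (x := (i, 2 * (posn S x * k + posn S' y))) hG g9 hslot (by
        change _ + (Adj k n m x y).size + 1 ≤ M
        omega)).up hG (by omega)
  have g11 : Sq F M Γ O (e1 + 48) :=
    (Sq.ORI (f := fun q : ℕ × ℕ => Adj k n m q.1 q.2) (x := (x, y)) hG g10 (by
      simp only [List.mem_filter, decide_eq_true_eq]
      exact ⟨List.mem_product.2 ⟨List.mem_range.2 hxn, List.mem_range.2 hyn⟩, hxT, hyT, hxy⟩)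
      (by
        change _ + O.size + 1 ≤ M
        omega)).up hG (by omega)
  exact g11.up hG (by omega)

end Pool.Agent.Y528.KL
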