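import Pool.Agent.Y528.KL.Facts3

/-!
# Assembly
-/

set_option autoImplicit false

namespace Pool.Agent.Y528.KL

open Pool.Agent.H555R2.PF Pool.Agent.H555R2.PF.Fm Pool.Agent.TH677.EF

variable {F : List Rule} {M : ℕ}

/-- the number of colours that are no stars is either at least `TT k` or smaller -/
theorem t_con (F : List Rule) (k : ℕ) (h1 : T_A F k) (h2 : T_B F k) (h3 : T_SS F (TT k)) :
    Uni F k fun n m M e => Sq F M [HT k n m, HI k n m] FF e := by
  intro hk
  obtain ⟨e1, K1, f1⟩ := h1 hk
  obtain ⟨e2, K2, f2⟩ := h2 hk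
  obtain ⟨e3, K3, f3⟩ := h3
  refine ⟨e1 + e2 + e3 + 100, 4 * k * k + 2 * k + 50 + K1 + K2 + K3 + TT k + 60 + k,
    fun n m M hmn hG hM => ?_⟩
  obtain ⟨P, B, hP⟩ := base hk hmn ((pw_mono n (by omega)).trans hM)
  have f1 := f1 n m M hmn hG ((pw_mono n (by omega)).trans hM)
  have f2 := f2 n m M hmn hG ((pw_mono n (by omega)).trans hM)
  have b1 := B.one
  have b2 := B.sHT
  have b3 := B.sHI
  have hmn' : m ≤ n := by omega
  have f3 := f3 m M (fun i => neg (isStar k n i)) ((n + 2) ^ (k + 9)) hG
    (fun y _ => neg_pow (isStar_pow y) (by omega)) (by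
      have h5 : (m + 2) ^ K3 ≤ (n + 2) ^ K3 := Nat.pow_le_pow_left (by omega) K3
      have h6 : (n + 2) ^ (k + 9) + 1 ≤ (n + 2) ^ (k + 10) := by
        have := pw_two n (a := k + 9) (b := k + 10) 1 le_rfl
        have := pw_pos n (k + 9)
        omega
      calc (m + 2) ^ K3 * ((n + 2) ^ (k + 9) + 1) ≤ (n + 2) ^ K3 * (n + 2) ^ (k + 10) :=
            Nat.mul_le_mul h5 h6
        _ = (n + 2) ^ (K3 + (k + 10)) := by rw [← pow_add]
        _ ≤ _ := pw_mono n (by omega)
        _ ≤ M := hM)
  set X := OR ((subs (TT k) m).map fun N => allof m (fun i => neg (isStar k n i)) N) with hX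
  set Y := OR ((subsLt (TT k) m).map fun N => exactly m (fun i => neg (isStar k n i)) N) with hY
  have hf3 := f3.size
  simp only [AND, size] at hf3
  have hsa : ∀ N : Finset ℕ, (allof m (fun i => neg (isStar k n i)) N).size ≤
      (n + 2) ^ (k + 13) := fun N => nst_pow hmn' N
  have hse : ∀ N : Finset ℕ, (exactly m (fun i => neg (isStar k n i)) N).size ≤
      (n + 2) ^ (k + 14) := fun N => by
    refine AND_pow (a := 1) (b := k + 10) (range_length_le hmn') (fun x hx => ?_) (by omega)
    split_ifs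
    · exact neg_pow (isStar_pow x) (by omega)
    · exact neg_pow (neg_pow (b := k + 8) (isStar_pow x) le_rfl) (by omega)
  have hlen1 : (subs (TT k) m).length ≤ (n + 2) ^ TT k :=
    (subs_length _ _).trans (Nat.pow_le_pow_left (by omega) _)
  have hlen2 : (subsLt (TT k) m).length ≤ (n + 2) ^ TT k :=
    (subsLt_length _ _).trans (Nat.pow_le_pow_left (by omega) _)
  have hXs : X.size ≤ (n + 2) ^ (TT k + k + 20) :=
    OR_pow (a := TT k) (b := k + 13) hlen1 (fun N _ => hsa N) (by omega)
  have hYs : Y.size ≤ (n + 2) ^ (TT k + k + 20) :=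
    OR_pow (a := TT k) (b := k + 14) hlen2 (fun N _ => hse N) (by omega)
  have hbig : 2 ^ 10 * (n + 2) ^ (TT k + k + 20) ≤ M := big hM 10 (by omega)
  have hone := pw_pos n (TT k + k + 20)
  have hs0 : (AND [HT k n m, HI k n m]).size = (HT k n m).size + (HI k n m).size + 5 := by
    simp only [AND, size]; omega
  have h4 : Sq F M [HT k n m, HI k n m] (or X Y) (max e3 13 + 5) :=
    Sq.weak hG f3 (by simp) (by simp only [size]; omega)
  refine (Sq.orE hG (b := e2 + 30) (c := e1 + 30) h4 ?_ ?_).up hG (by omega)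
  · have hs1 : (AND (X :: [HT k n m, HI k n m])).size =
        X.size + (HT k n m).size + (HI k n m).size + 6 := by simp only [AND, size]; omega
    have h5 : Sq F M (X :: [HT k n m, HI k n m]) X 4 := Sq.hyp hG (by simp) (by omega)
    refine (Sq.ORE hG (b := e2 + 18) h5 (fun N hN => ?_) (by rw [FF_size]; omega)).up hG
      (by omega)
    have hs2 : (AND (allof m (fun i => neg (isStar k n i)) N :: X ::
        [HT k n m, HI k n m])).size = (allof m (fun i => neg (isStar k n i)) N).size +
        X.size + (HT k n m).size + (HI k n m).size + 7 := by simp only [AND, size]; omega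
    have h6 := hsa N
    have h7 : (n + 2) ^ (k + 13) ≤ (n + 2) ^ (TT k + k + 20) := pw_mono n (by omega)
    exact (Sq.weak hG (f2 N hN) (by
      intro Z hZ
      rcases List.mem_cons.1 hZ with hZ | hZ
      · rw [hZ]; exact List.mem_cons_self
      · exact List.mem_cons_of_mem _ (List.mem_cons_of_mem _ hZ)) (by
        rw [FF_size]; omega)).up hG (by omega)
  · have hs1 : (AND (Y :: [HT k n m, HI k n m])).size =
        Y.size + (HT k n m).size + (HI k n m).size + 6 := by simp only [AND, size]; omega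
    have h5 : Sq F M (Y :: [HT k n m, HI k n m]) Y 4 := Sq.hyp hG (by simp) (by omega)
    refine (Sq.ORE hG (b := e1 + 18) h5 (fun N hN => ?_) (by rw [FF_size]; omega)).up hG
      (by omega)
    have hs2 : (AND (exactly m (fun i => neg (isStar k n i)) N :: Y ::
        [HT k n m, HI k n m])).size = (exactly m (fun i => neg (isStar k n i)) N).size +
        Y.size + (HT k n m).size + (HI k n m).size + 7 := by simp only [AND, size]; omega
    have h6 := hse N
    have h7 : (n + 2) ^ (k + 14) ≤ (n + 2) ^ (TT k + k + 20) := pw_mono n (by omega)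
    exact (Sq.weak hG (f1 N hN) (by
      intro Z hZ
      rcases List.mem_cons.1 hZ with hZ | hZ
      · rw [hZ]; exact List.mem_cons_self
      · exact List.mem_cons_of_mem _ (List.mem_cons_of_mem _ hZ)) (by
        rw [FF_size]; omega)).up hG (by omega)

/-- **the Kneser-Lovász tautologies have polynomial-size proofs** -/
theorem t_kl (F : List Rule) (k : ℕ) (h1 : T_A F k) (h2 : T_B F k) (h3 : T_SS F (TT k)) :
    T_KL F k := by
  intro hk
  obtain ⟨e1, K1, f1⟩ := t_con F k h1 h2 h3 hk
  refine ⟨e1 + 100, 4 * k * k + 2 * k + 50 + K1, fun n m M hmn hG hM => ?_⟩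
  obtain ⟨P, B, hP⟩ := base hk hmn ((pw_mono n (by omega)).trans hM)
  have f1 := f1 n m M hmn hG ((pw_mono n (by omega)).trans hM)
  have b1 := B.one
  have b2 := B.sHT
  have b3 := B.sHI
  have b4 := B.sHD
  set D := HD k n m with hD
  set T := HT k n m with hT
  have hs0 : (AND [neg D, T]).size = D.size + T.size + 6 := by simp only [AND, size]; omega
  have g1 : Sq F M [neg D, T] (neg D) 4 := Sq.hyp hG (by simp) (by simp only [size]; omega)
  have g2 : Sq F M [neg D, T] (HI k n m) 30 := by
    refine (Sq.ANDI hG (e := 20) (fun Q hQ => ?_) (by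
      change _ + (HI k n m).size + 1 ≤ M
      omega)).up hG (by omega)
    have g3 := Sq.NORE hG g1 hQ
    have hsz : (AND ((List.range m).map fun i => neg (and (pv Q.1 i) (pv Q.2 i)))).size + 4 ≤
        (HI k n m).size := mem_AND_size (List.mem_map.2 ⟨Q, hQ, rfl⟩)
    exact (Sq.ANDI hG (e := 15) (fun i hi => (Sq.NORE hG g3 hi).up hG (by omega)) (by
      omega)).up hG (by omega)
  have hs1 : (AND (HI k n m :: [neg D, T])).size = (HI k n m).size + D.size + T.size + 7 := by
    simp only [AND, size]; omega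
  have g3 : Sq F M (HI k n m :: [neg D, T]) FF (e1 + 20) :=
    (Sq.weak hG f1 (by
      intro Z hZ
      simp only [List.mem_cons, List.not_mem_nil, or_false] at hZ ⊢
      rcases hZ with hZ | hZ
      · exact Or.inr (Or.inr hZ)
      · exact Or.inl hZ) (by rw [FF_size]; omega)).up hG (by omega)
  have g4 := Sq.cut hG g2 g3
  have g5 : Sq F M [T] D (e1 + 60) := (Sq.byContra hG g4).up hG (by omega)
  exact (Sq.pf hG (Sq.ded hG g5)).mono (hG.le_pow (by omega))

/-- the bound in terms of `n` only -/
theorem kl_bound (F : List Rule) (hF : IsFrege F) (k : ℕ) (hk : 1 ≤ k) (h : T_KL F k) :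
    ∃ c : ℕ, ∀ n m : ℕ, m + 2 * k ≤ n + 1 → Pf F (KLf k n m) ((n + 2) ^ c) := by
  obtain ⟨e, K, f⟩ := h hk
  refine ⟨(K + goodC F) * e, fun n m hmn => ?_⟩
  rw [pow_mul]
  refine f n m _ hmn (good_of_le hF ?_) (pw_mono n (by omega))
  exact (const_le n (goodC F)).trans (pw_mono n (by omega))

end Pool.Agent.Y528.KL
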