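import Pool.Agent.Y528.KL.Rules

/-!
# Frege proofs of the Kneser-Lovász theorem: the formulas and the statements

`k` is fixed; the `k`-subsets of `{0, …, n-1}` are coloured with `m` colours, `m + 2 k ≤ n + 1`.

All statements have the form: for every Frege system `F` there are `e`, `K` such that for all
`n`, `m`, `M` with `m + 2 k ≤ n + 1`, `(n + 2) ^ K ≤ M` and `Good F M` the sequent
`Sq F M Γ A e` holds, uniformly in the other parameters.
-/

set_option autoImplicit false

namespace Pool.Agent.Y528.KL

open Pool.Agent.H555R2.PF Pool.Agent.H555R2.PF.Fm Pool.Agent.TH677.EF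

/-! ### least elements -/

/-- the elements of `l` before `a` -/
def before {α : Type} [DecidableEq α] (l : List α) (a : α) : List α :=
  l.takeWhile fun b => decide (b ≠ a)

/-- `a` is the first element of the list `l` with `P a` -/
def Least {α : Type} [DecidableEq α] (l : List α) (P : α → Fm) (a : α) : Fm :=
  and (P a) (AND ((before l a).map fun b => neg (P b)))

/-! ### sets of numbers -/

/-- the `k`-subsets of `{0, …, n-1}` -/
noncomputable def subs (k n : ℕ) : List (Finset ℕ) := ((Finset.range n).powersetCard k).toList

/-- the subsets of `{0, …, n-1}` with fewer than `k` elements -/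
noncomputable def subsLt (k n : ℕ) : List (Finset ℕ) :=
  ((Finset.range n).powerset.filter fun S => S.card < k).toList

/-- the number of elements of `S` that are less than `x` -/
def posn (S : Finset ℕ) (x : ℕ) : ℕ := (S.filter fun y => y < x).card

/-- all elements of `N` satisfy `Q` -/
def allof (n : ℕ) (Q : ℕ → Fm) (N : Finset ℕ) : Fm :=
  AND (((List.range n).filter fun y => y ∈ N).map Q)

/-- exactly the elements of `N` satisfy `Q` -/
def exactly (n : ℕ) (Q : ℕ → Fm) (N : Finset ℕ) : Fm :=
  AND ((List.range n).map fun y => if y ∈ N then Q y else neg (Q y))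

/-! ### the Kneser-Lovász formula -/

/-- the variable saying that the set `S` has colour `i` -/
def pv (S : Finset ℕ) (i : ℕ) : Fm := var (Encodable.encode (S, i))

/-- the pairs of disjoint `k`-subsets -/
noncomputable def disj (k n : ℕ) : List (Finset ℕ × Finset ℕ) :=
  ((subs k n).product (subs k n)).filter fun P => Disjoint P.1 P.2

/-- every `k`-subset has a colour -/
noncomputable def HT (k n m : ℕ) : Fm :=
  AND ((subs k n).map fun S => OR ((List.range m).map fun i => pv S i))

/-- there are two disjoint `k`-subsets with the same colour -/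
noncomputable def HD (k n m : ℕ) : Fm :=
  OR ((disj k n).map fun P => OR ((List.range m).map fun i => and (pv P.1 i) (pv P.2 i)))

/-- disjoint `k`-subsets never have the same colour -/
noncomputable def HI (k n m : ℕ) : Fm :=
  AND ((disj k n).map fun P => AND ((List.range m).map fun i => neg (and (pv P.1 i) (pv P.2 i))))

/-- **The Kneser-Lovász tautology**: if every `k`-subset of `{0, …, n-1}` has one of `m` colours
then two disjoint `k`-subsets have the same colour. -/
noncomputable def KLf (k n m : ℕ) : Fm := imp (HT k n m) (HD k n m)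

/-! ### stars -/

/-- `z` is contained in all sets of colour `i` -/
noncomputable def cen (k n i z : ℕ) : Fm :=
  AND (((subs k n).filter fun S => z ∉ S).map fun S => neg (pv S i))

/-- the sets of colour `i` have a common element -/
noncomputable def isStar (k n i : ℕ) : Fm := OR ((List.range n).map fun z => cen k n i z)

/-- `z` is the least common element of the sets of colour `i` -/
noncomputable def ctr (k n i z : ℕ) : Fm := Least (List.range n) (fun z => cen k n i z) z

/-- `x` is not the centre of a star -/
noncomputable def Uf (k n m x : ℕ) : Fm := AND ((List.range m).map fun i => neg (ctr k n i x))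

/-- all colours in `T` are no stars -/
noncomputable def nst (k n m : ℕ) (T : Finset ℕ) : Fm := allof m (fun i => neg (isStar k n i)) T

/-! ### the graph -/

/-- `S` is the first set of colour `i` -/
noncomputable def L0 (k n i : ℕ) (S : Finset ℕ) : Fm := Least (subs k n) (fun S => pv S i) S

/-- `S` is the first set of colour `i` that does not contain `x` -/
noncomputable def L1 (k n i x : ℕ) (S : Finset ℕ) : Fm :=
  Least ((subs k n).filter fun S => x ∉ S) (fun S => pv S i) S

/-- colour `i` is no star, `x` is the `a`-th element of its first set `S`, and `y` is the `b`-th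
element of its first set that does not contain `x` -/
noncomputable def inc0 (k n i a b x y : ℕ) : Fm :=
  and (neg (isStar k n i))
    (and (OR (((subs k n).filter fun S => x ∈ S ∧ posn S x = a).map fun S => L0 k n i S))
      (OR (((subs k n).filter fun S => x ∉ S ∧ y ∈ S ∧ posn S y = b).map fun S => L1 k n i x S)))

/-- the edge with number `h < 2 k ^ 2` of colour `i` goes from `x` to `y` -/
noncomputable def inc (k n i h x y : ℕ) : Fm :=
  if h % 2 = 0 then inc0 k n i (h / 2 / k) (h / 2 % k) x y
  else inc0 k n i (h / 2 / k) (h / 2 % k) y x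

/-- the pairs (colour, number of the edge) -/
def slots (k m : ℕ) : List (ℕ × ℕ) := (List.range m).product (List.range (2 * k * k))

/-- `x` and `y` are joined by an edge -/
noncomputable def Adj (k n m x y : ℕ) : Fm :=
  OR ((slots k m).map fun s => inc k n s.1 s.2 x y)

/-- number of neighbours of a vertex of high degree -/
def Wk (k : ℕ) : ℕ := 2 * k * k + 1

/-- `x` has at least `W k` neighbours -/
noncomputable def High (k n m x : ℕ) : Fm :=
  OR ((subs (Wk k) n).map fun Y => allof n (fun y => Adj k n m x y) Y)

/-- `Y` is the first `W k`-set of neighbours of `x` -/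
noncomputable def LG (k n m x : ℕ) (Y : Finset ℕ) : Fm :=
  Least (subs (Wk k) n) (fun Y => allof n (fun y => Adj k n m x y) Y) Y

/-- `x` is no centre and has fewer than `W k` neighbours -/
noncomputable def Low (k n m x : ℕ) : Fm := and (Uf k n m x) (neg (High k n m x))

/-- `I` consists of pairwise non-adjacent vertices of low degree -/
noncomputable def Ind (k n m : ℕ) (I : Finset ℕ) : Fm :=
  and (allof n (fun x => Low k n m x) I)
    (AND ((((List.range n).product (List.range n)).filter fun q =>
      q.1 ∈ I ∧ q.2 ∈ I ∧ q.1 ≠ q.2).map fun q => neg (Adj k n m q.1 q.2)))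

/-- number of colours -/
def TT (k : ℕ) : ℕ := k * (Wk k + 1) * Wk k

/-! ### the statements -/

/-- the form of all statements -/
def Uni (F : List Rule) (k : ℕ) (P : ℕ → ℕ → ℕ → ℕ → Prop) : Prop := 1 ≤ k →
  ∃ e K : ℕ, ∀ n m M : ℕ, m + 2 * k ≤ n + 1 → Good F M → (n + 2) ^ K ≤ M → P n m M e

/-- a centre of `i` makes `i` a star -/
def T_F6a (F : List Rule) (k : ℕ) : Prop := Uni F k fun n _ M e =>
  ∀ i z : ℕ, z < n → Sq F M [ctr k n i z] (isStar k n i) e

/-- the centre is unique -/
def T_F6b (F : List Rule) (k : ℕ) : Prop := Uni F k fun n _ M e =>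
  ∀ i z z' : ℕ, z < n → z' < n → z ≠ z' → Sq F M [ctr k n i z, ctr k n i z'] FF e

/-- either `x` is a centre or `U x` -/
def T_F7 (F : List Rule) (k : ℕ) : Prop := Uni F k fun n m M e =>
  ∀ x : ℕ, x < n → Sq F M [neg (Uf k n m x)] (OR ((List.range m).map fun i => ctr k n i x)) e

/-- a set `T ⊆ U` has a colour that is no star -/
def T_F1 (F : List Rule) (k : ℕ) : Prop := Uni F k fun n m M e =>
  ∀ (T : Finset ℕ) (i : ℕ), T ∈ subs k n → i < m →
    Sq F M [pv T i, allof n (fun x => Uf k n m x) T] (neg (isStar k n i)) e

/-- a colour that is no star has a first set -/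
def T_F2a (F : List Rule) (k : ℕ) : Prop := Uni F k fun n m M e =>
  ∀ i : ℕ, i < m → Sq F M [neg (isStar k n i)] (OR ((subs k n).map fun S => L0 k n i S)) e

/-- a colour that is no star has a first set that does not contain `x` -/
def T_F2b (F : List Rule) (k : ℕ) : Prop := Uni F k fun n m M e =>
  ∀ i x : ℕ, i < m → x < n → Sq F M [neg (isStar k n i)]
    (OR (((subs k n).filter fun S => x ∉ S).map fun S => L1 k n i x S)) e

/-- a `k`-subset of `U` contains an edge -/
def T_F3 (F : List Rule) (k : ℕ) : Prop := Uni F k fun n m M e =>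
  ∀ T : Finset ℕ, T ∈ subs k n →
    Sq F M [allof n (fun x => Uf k n m x) T, HT k n m, HI k n m]
      (OR ((((List.range n).product (List.range n)).filter fun q =>
        q.1 ∈ T ∧ q.2 ∈ T ∧ q.1 ≠ q.2).map fun q => Adj k n m q.1 q.2)) e

/-- an edge determines its ends -/
def T_F4 (F : List Rule) (k : ℕ) : Prop := Uni F k fun n m M e =>
  ∀ i h x y x' y' : ℕ, i < m → h < 2 * k * k → x < n → y < n → x' < n → y' < n →
    (x, y) ≠ (x', y') → Sq F M [inc k n i h x y, inc k n i h x' y'] FF e

/-- edges belong to colours that are no stars -/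
def T_F5 (F : List Rule) (k : ℕ) : Prop := Uni F k fun n m M e =>
  ∀ i h x y : ℕ, i < m → h < 2 * k * k → x < n → y < n →
    Sq F M [inc k n i h x y] (neg (isStar k n i)) e

/-- **Case B, counting step**: if all vertices of low degree lie in the set `C₀` and there are
`|C₀| W` colours that are no stars, there is a contradiction. -/
def T_B2 (F : List Rule) (k : ℕ) : Prop := Uni F k fun n m M e =>
  ∀ C₀ T : Finset ℕ, C₀ ⊆ Finset.range n → T ⊆ Finset.range m → C₀.card * Wk k ≤ T.card →
    T.card ≤ TT k →
    Sq F M [AND (((List.range n).filter fun x => x ∉ C₀).map fun x => neg (Low k n m x)),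
      nst k n m T] FF e

/-- **Case B**: there are `TT k` colours that are no stars -/
def T_B (F : List Rule) (k : ℕ) : Prop := Uni F k fun n m M e =>
  ∀ T : Finset ℕ, T ∈ subs (TT k) m → Sq F M [nst k n m T, HT k n m, HI k n m] FF e

/-- **the base cases**: constantly many sets -/
def T_BC (F : List Rule) (k : ℕ) : Prop := Uni F k fun n m M e =>
  ∀ N T : Finset ℕ, N ⊆ Finset.range n → T ⊆ Finset.range m → N.card + 1 = T.card + 2 * k →
    T.card ≤ TT k →
    Sq F M [AND (((subs k n).filter fun S => S ⊆ N).map fun S =>
        OR (((List.range m).filter fun i => i ∈ T).map fun i => pv S i)), HI k n m] FF e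

/-- **Case A**: the colours that are no stars are exactly the elements of `T`, and `|T| < TT k` -/
def T_A (F : List Rule) (k : ℕ) : Prop := Uni F k fun n m M e =>
  ∀ T : Finset ℕ, T ∈ subsLt (TT k) m →
    Sq F M [exactly m (fun i => neg (isStar k n i)) T, HT k n m, HI k n m] FF e

/-- **the final statement** -/
def T_KL (F : List Rule) (k : ℕ) : Prop := Uni F k fun n m M e =>
  Pf F (KLf k n m) (M ^ e)

/-! ### general tools -/

/-- Either `w` of the formulas `Q y`, `y < n`, are true, or exactly the `Q y` with `y ∈ N` are
true for some set `N` with fewer than `w` elements. -/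
def T_SS (F : List Rule) (w : ℕ) : Prop := ∃ e K : ℕ, ∀ (n M : ℕ) (Q : ℕ → Fm) (s : ℕ),
  Good F M → (∀ y < n, (Q y).size ≤ s) → (n + 2) ^ K * (s + 1) ≤ M →
  Sq F M [] (or (OR ((subs w n).map fun N => allof n Q N))
    (OR ((subsLt w n).map fun N => exactly n Q N))) e

/-- the pigeonhole principle as a rule -/
def T_PHPR (F : List Rule) : Prop := ∃ e₀ : ℕ, ∀ (α β : Type) (A : List α) (B : List β)
  (R : α → β → Fm) (M e : ℕ) (Γ : List Fm), Good F M → A.Nodup → B.Nodup →
  B.length < A.length → A.length + 2 ≤ M →
  (∀ a ∈ A, Sq F M Γ (OR (B.map fun b => R a b)) e) →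
  (∀ a ∈ A, ∀ a' ∈ A, ∀ b ∈ B, a ≠ a' → Sq F M Γ (neg (and (R a b) (R a' b))) e) →
  Sq F M Γ FF (e + e₀)

end Pool.Agent.Y528.KL
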