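import Pool.Agent.Y528.KL.KDefs

/-!
# Rules for `Least`, long chains of implications
-/

set_option autoImplicit false

namespace Pool.Agent.Y528.KL

open Pool.Agent.H555R2.PF Pool.Agent.H555R2.PF.Fm Pool.Agent.TH677.EF

variable {F : List Rule} {M : ℕ}

/-- a long chain of implications -/
theorem Good.chain (hG : Good F M) {G : Fm} {X : ℕ → Fm} {e J : ℕ} (hJ : J + 1 ≤ M)
    (h0 : Pf F (imp G (X 0)) (M ^ e)) (hs : ∀ j ≤ J, (X j).size ≤ M ^ e)
    (h : ∀ j < J, Pf F (imp G (imp (X j) (X (j + 1)))) (M ^ e)) :
    ∀ j ≤ J, Pf F (imp G (X j)) (M ^ (e + 4)) := by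
  have key : ∀ j ≤ J, Pf F (imp G (X j)) ((j + 1) * M ^ (e + 3)) := by
    intro j
    induction j with
    | zero =>
      intro _
      refine h0.mono ?_
      rw [zero_add, one_mul]
      exact hG.le_pow (by omega)
    | succ j ih =>
      intro hj
      have h1 := hG.r2 (imp (var 0) (imp (var 1) (var 2))) (imp (var 0) (var 1))
        (imp (var 0) (var 2)) [G, X j, X (j + 1)] (by intro v; simp [eval]; tauto)
        (by simp [size]) (e := e) (h j (by omega)) (ih (by omega)) (by
          intro Y hY
          simp only [List.mem_cons, List.not_mem_nil, or_false] at hY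
          rcases hY with rfl | rfl | rfl
          · have := (h j (by omega)).size_le
            simp only [size] at this
            omega
          · exact hs j (by omega)
          · exact hs (j + 1) hj)
      refine Pf.mono h1 ?_
      ring_nf
      omega
  intro j hj
  refine (key j hj).mono ?_
  exact hG.mul_le (by omega)

/-! ### sizes -/

theorem AND_map_size_le {α : Type*} {l : List α} {f : α → Fm} {s : ℕ}
    (h : ∀ x ∈ l, (f x).size ≤ s) : (AND (l.map f)).size ≤ l.length * (s + 1) + 3 := by
  induction l with
  | nil => simp [AND, size]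
  | cons a l ih =>
    have h1 := ih fun x hx => h x (by simp [hx])
    have h2 := h a (by simp)
    simp only [List.map_cons, AND, size, List.length_cons]
    nlinarith

theorem OR_map_size_le {α : Type*} {l : List α} {f : α → Fm} {s : ℕ}
    (h : ∀ x ∈ l, (f x).size ≤ s) : (OR (l.map f)).size ≤ l.length * (s + 1) + 4 := by
  induction l with
  | nil => simp [OR, size]
  | cons a l ih =>
    have h1 := ih fun x hx => h x (by simp [hx])
    have h2 := h a (by simp)
    simp only [List.map_cons, OR, size, List.length_cons]
    nlinarith

theorem AND_sublist_size {l l' : List Fm} (h : l.Sublist l') : (AND l).size ≤ (AND l').size := by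
  induction h with
  | slnil => exact le_rfl
  | cons a _ ih => simp only [AND, size]; omega
  | cons_cons a _ ih => simp only [AND, size]; omega

theorem OR_sublist_size {l l' : List Fm} (h : l.Sublist l') : (OR l).size ≤ (OR l').size := by
  induction h with
  | slnil => exact le_rfl
  | cons a _ ih => simp only [OR, size]; omega
  | cons_cons a _ ih => simp only [OR, size]; omega

/-! ### `before` -/

section before

variable {α : Type} [DecidableEq α]

theorem before_append {l1 l2 : List α} {a : α} (h : (l1 ++ a :: l2).Nodup) :
    before (l1 ++ a :: l2) a = l1 := by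
  unfold before
  rw [List.takeWhile_append_of_pos]
  · simp
  · intro b hb
    have : b ≠ a := by
      rintro rfl
      rw [List.nodup_append] at h
      exact h.2.2 b hb b (by simp) rfl
    simp [this]

theorem before_get {l : List α} (hl : l.Nodup) {j : ℕ} (hj : j < l.length) :
    before l l[j] = l.take j := by
  have h1 : l = l.take j ++ l[j] :: l.drop (j + 1) := by simp
  have h2 : (l.take j ++ l[j] :: l.drop (j + 1)).Nodup := by rw [← h1]; exact hl
  have h3 := before_append h2
  rwa [← h1] at h3

theorem before_sublist (l : List α) (a : α) : (before l a).Sublist l :=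
  List.takeWhile_sublist _

theorem mem_before {l : List α} (hl : l.Nodup) {a b : α} (ha : a ∈ l) (hb : b ∈ l) (hab : a ≠ b) :
    a ∈ before l b ∨ b ∈ before l a := by
  obtain ⟨i, hi, rfl⟩ := List.mem_iff_getElem.1 ha
  obtain ⟨j, hj, rfl⟩ := List.mem_iff_getElem.1 hb
  have hij : i ≠ j := by rintro rfl; exact hab rfl
  rw [before_get hl hi, before_get hl hj]
  rcases lt_or_gt_of_ne hij with h | h
  · left
    rw [List.mem_take_iff_getElem]
    exact ⟨i, by omega, rfl⟩
  · right
    rw [List.mem_take_iff_getElem]
    exact ⟨j, by omega, rfl⟩

theorem Least_size_le (l : List α) (P : α → Fm) (a : α) {s : ℕ} (h : ∀ x ∈ l, (P x).size ≤ s)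
    (ha : (P a).size ≤ s) : (Least l P a).size ≤ l.length * (s + 2) + s + 4 := by
  have h1 : (AND ((before l a).map fun b => neg (P b))).size ≤ l.length * (s + 1 + 1) + 3 := by
    refine (AND_map_size_le (s := s + 1) fun x hx => ?_).trans ?_
    · have := h x ((before_sublist l a).subset hx)
      simp only [size]; omega
    · have := (before_sublist l a).length_le
      gcongr
  unfold Least
  simp only [size]
  have h2 : l.length * (s + 1 + 1) = l.length * (s + 2) := by ring
  omega

end before

namespace Sq

variable {Γ : List Fm} {e : ℕ} {α : Type} [DecidableEq α]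

/-- the least element is unique -/
theorem least_unique (hG : Good F M) {l : List α} (hl : l.Nodup) {P : α → Fm} {a b : α}
    (ha : a ∈ l) (hb : b ∈ l) (hab : a ≠ b)
    (hs : 2 * (Least l P a).size + 2 * (Least l P b).size + 20 ≤ M) :
    Sq F M [Least l P a, Least l P b] FF 20 := by
  have hsA : (AND [Least l P a, Least l P b]).size =
      (Least l P a).size + (Least l P b).size + 5 := by
    simp only [AND, Fm.size]; omega
  have h1 : Sq F M [Least l P a, Least l P b] (Least l P a) 4 := hyp hG (by simp) (by omega)
  have h2 : Sq F M [Least l P a, Least l P b] (Least l P b) 4 := hyp hG (by simp) (by omega)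
  rcases mem_before hl ha hb hab with h | h
  · have h3 := andL hG h1
    have h4 := ANDE hG (andR hG h2) h
    exact (contraF hG h3 h4 (by omega)).up hG (by omega)
  · have h3 := andL hG h2
    have h4 := ANDE hG (andR hG h1) h
    exact (contraF hG h3 h4 (by omega)).up hG (by omega)

theorem least_prop (hG : Good F M) {l : List α} {P : α → Fm} {a : α}
    (h : Sq F M Γ (Least l P a) e) : Sq F M Γ (P a) (e + 3) := andL hG h

/-- if some element has the property then there is a least one -/
theorem least_exists (hG : Good F M) {l : List α} (hl : l.Nodup) {P : α → Fm}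
    (hs : 3 * (OR (l.map P)).size + 3 * (OR (l.map fun a => Least l P a)).size +
      3 * (AND (l.map fun a => neg (P a))).size + 30 ≤ M) :
    Sq F M [OR (l.map P)] (OR (l.map fun a => Least l P a)) 100 := by
  set O := OR (l.map P) with hO
  set O' := OR (l.map fun a => Least l P a) with hO'
  set X : ℕ → Fm := fun j => AND ((l.take j).map fun a => neg (P a)) with hX
  have hXs : ∀ j, (X j).size ≤ (AND (l.map fun a => neg (P a))).size := fun j =>
    AND_sublist_size ((List.take_sublist j l).map _)
  have hlen := length_le_AND (l.map fun a => neg (P a))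
  rw [List.length_map] at hlen
  have hsn : (AND [neg O', O]).size = O'.size + O.size + 6 := by
    simp only [AND, Fm.size]; omega
  -- all `X j` under the context `[neg O', O]`
  have hstep : ∀ j < l.length, Sq F M [neg O', O] (imp (X j) (X (j + 1))) 50 := by
    intro j hj
    refine (ded hG (e := 40) ?_).up hG (by omega)
    have hX0 := hXs j
    have hX1 := hXs (j + 1)
    have hs3 : (AND [X j, neg O', O]).size = (X j).size + O'.size + O.size + 7 := by
      simp only [AND, Fm.size]; omega
    have hh : Sq F M [X j, neg O', O] (X j) 4 := hyp hG (by simp) (by omega)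
    have hPa : (P l[j]).size + 5 ≤ O.size := mem_OR_size (List.mem_map.2 ⟨l[j], by simp, rfl⟩)
    have hLa : (Least l P l[j]).size + 5 ≤ O'.size :=
      mem_OR_size (List.mem_map.2 ⟨l[j], by simp, rfl⟩)
    have hLs : (Least l P l[j]).size = (P l[j]).size + (X j).size + 1 := by
      unfold Least
      rw [before_get hl hj]
      simp only [Fm.size, hX]
    have hneg : Sq F M [X j, neg O', O] (neg (P l[j])) 30 := by
      refine (negI hG (e := 26) ?_).up hG (by omega)
      have hs4 : (AND [P l[j], X j, neg O', O]).size =
          (P l[j]).size + (X j).size + O'.size + O.size + 8 := by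
        simp only [AND, Fm.size]; omega
      have h1 : Sq F M [P l[j], X j, neg O', O] (P l[j]) 4 := hyp hG (by simp) (by omega)
      have h2 : Sq F M [P l[j], X j, neg O', O] (X j) 4 := hyp hG (by simp) (by omega)
      have h3 : Sq F M [P l[j], X j, neg O', O] (Least l P l[j]) 8 := by
        unfold Least
        rw [before_get hl hj]
        exact andI hG h1 h2 (by
          change _ + ((P l[j]).size + (X j).size + 1) + 1 ≤ M
          omega)
      have h4 : Sq F M [P l[j], X j, neg O', O] O' 12 :=
        ORI (l := l) (f := fun a => Least l P a) hG h3 (by simp) (by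
          change _ + O'.size + 1 ≤ M
          omega)
      have h5 : Sq F M [P l[j], X j, neg O', O] (neg O') 4 := hyp hG (by simp) (by
        simp only [Fm.size]; omega)
      exact (contraF hG h4 h5 (by omega)).up hG (by omega)
    refine (ANDI (l := l.take (j + 1)) (f := fun a => neg (P a)) hG (e := 30)
      (fun x hx => ?_) ?_).up hG (by omega)
    · rw [List.mem_take_iff_getElem] at hx
      obtain ⟨i, hi, rfl⟩ := hx
      by_cases hij : i = j
      · subst hij; exact hneg
      · have hm : l[i] ∈ l.take j := by
          rw [List.mem_take_iff_getElem]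
          exact ⟨i, by omega, rfl⟩
        exact (ANDE (l := l.take j) (f := fun a => neg (P a)) hG hh hm).up hG (by omega)
    · change _ + (X (j + 1)).size + 1 ≤ M
      omega
  have hall : Sq F M [neg O', O] (X l.length) 54 := by
    have h00 : Sq F M [neg O', O] (X 0) 50 := by
      refine (ANDI (l := l.take 0) (f := fun a => neg (P a)) hG (e := 30)
        (fun x hx => ?_) ?_).up hG (by omega)
      · simp at hx
      · have := hXs 0
        change _ + (X 0).size + 1 ≤ M
        omega
    refine ⟨?_, ?_⟩
    · have := hXs l.length
      simp only [Fm.size]; omega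
    · refine hG.chain (J := l.length) (by omega) h00.2 (fun j _ => ?_)
        (fun j hj => (hstep j hj).2) l.length le_rfl
      have := hXs j
      calc (X j).size ≤ M ^ 1 := by rw [pow_one]; omega
        _ ≤ M ^ 50 := hG.le_pow (by omega)
  refine (byContra hG (e := 90) ?_).up hG (by omega)
  have h1 : Sq F M [neg O', O] O 4 := hyp hG (by simp) (by omega)
  refine (ORE (l := l) (f := P) hG (b := 70) h1 (fun x hx => ?_) (by
    rw [FF_size]; omega)).up hG (by omega)
  have hPx : (P x).size + 5 ≤ O.size := mem_OR_size (List.mem_map.2 ⟨x, hx, rfl⟩)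
  have hs5 : (AND (P x :: [neg O', O])).size = (P x).size + O'.size + O.size + 7 := by
    simp only [AND, Fm.size]; omega
  have h2 : Sq F M (P x :: [neg O', O]) (P x) 4 := hyp hG (by simp) (by omega)
  have hX0 := hXs l.length
  have h3 : Sq F M (P x :: [neg O', O]) (X l.length) 59 :=
    (weak hG hall (by intro Y hY; simp at hY ⊢; tauto) (by omega)).up hG (by omega)
  have h4 : Sq F M (P x :: [neg O', O]) (neg (P x)) 63 := by
    have h5 := h3
    simp only [hX, List.take_length] at h5
    exact (ANDE (l := l) (f := fun a => neg (P a)) hG h5 hx).up hG (by omega)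
  exact (contraF hG h2 h4 (by omega)).up hG (by omega)

end Sq

end Pool.Agent.Y528.KL
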