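import Pool.Agent.Y528.KL.Calc

/-!
# Rules for conjunctions and disjunctions of lists
-/

set_option autoImplicit false

namespace Pool.Agent.Y528.KL

open Pool.Agent.H555R2.PF Pool.Agent.H555R2.PF.Fm Pool.Agent.TH677.EF

variable {F : List Rule} {M : ℕ}

/-- a rule with one premise, with additive cost -/
theorem Good.r1 (hG : Good F M) (A₁ B : Fm) (l : List Fm)
    (h : ∀ v : ℕ → Prop, A₁.eval v → B.eval v)
    (hs : A₁.size + B.size ≤ 90) {e m : ℕ} (h1 : Pf F (A₁.subst (asg l)) m)
    (hl : ∀ X ∈ l, X.size ≤ M ^ e) : Pf F (B.subst (asg l)) (M ^ (e + 2) + m) := by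
  have h2 := hG.taut (imp A₁ B) (fun v => h v) (by simp only [size]; omega) l (e := e) (by
    intro n hn
    exact asg_size (Nat.one_le_pow _ _ (by have := hG.two; omega)) hl n)
  have h3 := (pf_mp hG.hF).choose_spec _ _ _ _ h2 h1
  refine h3.mono (Nat.add_le_add_right ?_ _)
  have hc : cMP F = (pf_mp hG.hF).choose := by
    unfold cMP
    rw [dif_pos hG.hF]
  rw [← hc]
  calc cMP F * M ^ (e + 1) ≤ M * M ^ (e + 1) := Nat.mul_le_mul_right _ (by have := hG.cmp; omega)
    _ = M ^ (e + 2) := by rw [pow_succ M (e + 1), mul_comm]

/-- a rule with two premises, the cost of the second one is added -/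
theorem Good.r2 (hG : Good F M) (A₁ A₂ B : Fm) (l : List Fm)
    (h : ∀ v : ℕ → Prop, A₁.eval v → A₂.eval v → B.eval v)
    (hs : A₁.size + A₂.size + B.size ≤ 90) {e m : ℕ} (h1 : Pf F (A₁.subst (asg l)) (M ^ e))
    (h2 : Pf F (A₂.subst (asg l)) m)
    (hl : ∀ X ∈ l, X.size ≤ M ^ e) : Pf F (B.subst (asg l)) (M ^ (e + 3) + m) := by
  have h3 := hG.taut (imp A₁ (imp A₂ B)) (fun v => h v) (by simp only [size]; omega) l
    (e := e) (by
    intro n hn
    exact asg_size (Nat.one_le_pow _ _ (by have := hG.two; omega)) hl n)
  have h4 := hG.mp h3 h1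
  have h5 := (pf_mp hG.hF).choose_spec _ _ _ _ h4 h2
  refine h5.mono (Nat.add_le_add_right ?_ _)
  have hc : cMP F = (pf_mp hG.hF).choose := by
    unfold cMP
    rw [dif_pos hG.hF]
  rw [← hc]
  have e1 : max (e + 1) e + 1 = e + 2 := by omega
  rw [e1]
  calc cMP F * M ^ (e + 2) ≤ M * M ^ (e + 2) := Nat.mul_le_mul_right _ (by have := hG.cmp; omega)
    _ = M ^ (e + 3) := by rw [pow_succ M (e + 2), mul_comm]

theorem Good.acc (hG : Good F M) {e len : ℕ} (hlen : len ≤ M) : (len + 1) * M ^ e ≤ M ^ (e + 2) := by
  have h1 := hG.two
  calc (len + 1) * M ^ e ≤ (M * M) * M ^ e := Nat.mul_le_mul_right _ (by nlinarith)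
    _ = M ^ (e + 2) := by ring

theorem Good.mul_le (_hG : Good F M) {e len : ℕ} (hlen : len ≤ M) : len * M ^ e ≤ M ^ (e + 1) := by
  calc len * M ^ e ≤ M * M ^ e := Nat.mul_le_mul_right _ hlen
    _ = M ^ (e + 1) := by ring

section lists

variable (hG : Good F M)

include hG

theorem Good.AND_mem {l : List Fm} {A : Fm} (h : A ∈ l) {e : ℕ} (hlen : l.length + 1 ≤ M)
    (hl : (AND l).size ≤ M ^ e) : Pf F (imp (AND l) A) (M ^ (e + 3)) := by
  have key : ∀ l : List Fm, (AND l).size ≤ M ^ e → A ∈ l →
      Pf F (imp (AND l) A) (l.length * M ^ (e + 2)) := by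
    intro l
    induction l with
    | nil => intro _ h; simp at h
    | cons D l ih =>
      intro hl h
      simp only [AND, size] at hl
      rcases List.mem_cons.1 h with rfl | h
      · have h1 := hG.taut (imp (and (var 0) (var 1)) (var 0)) (by
          intro v; simp [eval]; tauto) (by simp [size]) [A, AND l] (e := e) (by
          intro n hn
          refine asg_size (by omega) ?_ n
          intro X hX; simp at hX; rcases hX with rfl | rfl <;> omega)
        refine h1.mono ?_
        rw [List.length_cons]
        calc M ^ (e + 1) ≤ M ^ (e + 2) := hG.le_pow (by omega)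
          _ = 1 * M ^ (e + 2) := by ring
          _ ≤ _ := Nat.mul_le_mul_right _ (by omega)
      · have h2 := ih (by omega) h
        have hA := (mem_AND_size h)
        have h1 := hG.r1 (imp (var 1) (var 2)) (imp (and (var 0) (var 1)) (var 2))
          [D, AND l, A] (by intro v; simp [eval]; tauto) (by simp [size]) (e := e)
          (by simpa [subst, asg] using h2) (by
          intro X hX; simp at hX; rcases hX with rfl | rfl | rfl <;> omega)
        have h3 : Pf F (imp (AND (D :: l)) A) (M ^ (e + 2) + l.length * M ^ (e + 2)) := by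
          simpa [subst, asg, AND] using h1
        refine h3.mono ?_
        rw [List.length_cons]
        nlinarith
  refine (key l hl h).mono ?_
  exact hG.mul_le (by omega)

theorem Good.OR_mem {l : List Fm} {A : Fm} (h : A ∈ l) {e : ℕ} (hlen : l.length + 1 ≤ M)
    (hl : (OR l).size ≤ M ^ e) : Pf F (imp A (OR l)) (M ^ (e + 3)) := by
  have key : ∀ l : List Fm, (OR l).size ≤ M ^ e → A ∈ l →
      Pf F (imp A (OR l)) (l.length * M ^ (e + 2)) := by
    intro l
    induction l with
    | nil => intro _ h; simp at h
    | cons D l ih =>
      intro hl h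
      simp only [OR, size] at hl
      rcases List.mem_cons.1 h with rfl | h
      · have h1 := hG.taut (imp (var 0) (or (var 0) (var 1))) (by
          intro v; simp [eval]; tauto) (by simp [size]) [A, OR l] (e := e) (by
          intro n hn
          refine asg_size (by omega) ?_ n
          intro X hX; simp at hX; rcases hX with rfl | rfl <;> omega)
        refine h1.mono ?_
        rw [List.length_cons]
        calc M ^ (e + 1) ≤ M ^ (e + 2) := hG.le_pow (by omega)
          _ = 1 * M ^ (e + 2) := by ring
          _ ≤ _ := Nat.mul_le_mul_right _ (by omega)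
      · have h2 := ih (by omega) h
        have hA := (mem_OR_size h)
        have h1 := hG.r1 (imp (var 2) (var 1)) (imp (var 2) (or (var 0) (var 1)))
          [D, OR l, A] (by intro v; simp [eval]; tauto) (by simp [size]) (e := e)
          (by simpa [subst, asg] using h2) (by
          intro X hX; simp at hX; rcases hX with rfl | rfl | rfl <;> omega)
        have h3 : Pf F (imp A (OR (D :: l))) (M ^ (e + 2) + l.length * M ^ (e + 2)) := by
          simpa [subst, asg, OR] using h1
        refine h3.mono ?_
        rw [List.length_cons]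
        nlinarith
  refine (key l hl h).mono ?_
  exact hG.mul_le (by omega)

theorem Good.AND_intro {l : List Fm} {G : Fm} {e : ℕ} (hlen : l.length + 1 ≤ M)
    (hs : (imp G (AND l)).size ≤ M ^ e)
    (h : ∀ A ∈ l, Pf F (imp G A) (M ^ e)) : Pf F (imp G (AND l)) (M ^ (e + 4)) := by
  have key : ∀ l : List Fm, (imp G (AND l)).size ≤ M ^ e → (∀ A ∈ l, Pf F (imp G A) (M ^ e)) →
      Pf F (imp G (AND l)) ((l.length + 1) * M ^ (e + 3)) := by
    intro l
    induction l with
    | nil =>
      intro hs _
      simp only [size] at hs
      have h1 := hG.taut (imp (var 0) (imp (var 1) (var 1))) (by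
          intro v; simp [eval]) (by simp [size]) [G, var 0] (e := e) (by
          intro n hn
          refine asg_size (by omega) ?_ n
          intro X hX; simp at hX; rcases hX with rfl | rfl
          · omega
          · simp only [size]; omega)
      refine h1.mono ?_
      simp only [List.length_nil, zero_add, one_mul]
      exact hG.le_pow (by omega)
    | cons D l ih =>
      intro hs h
      simp only [AND, size] at hs
      have h2 := ih (by simp only [size]; omega) fun A hA => h A (by simp [hA])
      have h1 := hG.r2 (imp (var 0) (var 1)) (imp (var 0) (var 2))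
        (imp (var 0) (and (var 1) (var 2)))
        [G, D, AND l] (by intro v; simp [eval]; tauto) (by simp [size]) (e := e)
        (by simpa [subst, asg] using h D (by simp)) (by simpa [subst, asg] using h2) (by
          intro X hX; simp at hX; rcases hX with rfl | rfl | rfl <;> omega)
      have h3 : Pf F (imp G (AND (D :: l))) (M ^ (e + 3) + (l.length + 1) * M ^ (e + 3)) := by
        simpa [subst, asg, AND] using h1
      refine h3.mono ?_
      rw [List.length_cons]
      nlinarith
  refine (key l hs h).mono ?_
  exact hG.mul_le hlen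

theorem Good.OR_elim {l : List Fm} {G B : Fm} {e : ℕ} (hlen : l.length + 1 ≤ M)
    (hs : (imp (and (OR l) G) B).size ≤ M ^ e)
    (h : ∀ A ∈ l, Pf F (imp (and A G) B) (M ^ e)) :
    Pf F (imp (and (OR l) G) B) (M ^ (e + 4)) := by
  have key : ∀ l : List Fm, (imp (and (OR l) G) B).size ≤ M ^ e →
      (∀ A ∈ l, Pf F (imp (and A G) B) (M ^ e)) →
      Pf F (imp (and (OR l) G) B) ((l.length + 1) * M ^ (e + 3)) := by
    intro l
    induction l with
    | nil =>
      intro hs _
      simp only [size] at hs
      have h1 := hG.taut (imp (and (neg (imp (var 1) (var 1))) (var 0)) (var 2)) (by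
          intro v; simp [eval]) (by simp [size]) [G, var 0, B] (e := e) (by
          intro n hn
          refine asg_size (by omega) ?_ n
          intro X hX; simp at hX; rcases hX with rfl | rfl | rfl
          · omega
          · simp only [size]; omega
          · omega)
      have h2 : Pf F (imp (and (OR []) G) B) (M ^ (e + 1)) := by
        simpa [subst, asg, OR] using h1
      refine h2.mono ?_
      simp only [List.length_nil, zero_add, one_mul]
      exact hG.le_pow (by omega)
    | cons D l ih =>
      intro hs h
      simp only [OR, size] at hs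
      have h2 := ih (by simp only [size]; omega) fun A hA => h A (by simp [hA])
      have h1 := hG.r2 (imp (and (var 1) (var 0)) (var 3)) (imp (and (var 2) (var 0)) (var 3))
        (imp (and (or (var 1) (var 2)) (var 0)) (var 3))
        [G, D, OR l, B] (by intro v; simp [eval]; tauto) (by simp [size]) (e := e)
        (by simpa [subst, asg] using h D (by simp)) (by simpa [subst, asg] using h2) (by
          intro X hX; simp at hX; rcases hX with rfl | rfl | rfl | rfl <;> omega)
      have h3 : Pf F (imp (and (OR (D :: l)) G) B)
          (M ^ (e + 3) + (l.length + 1) * M ^ (e + 3)) := by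
        simpa [subst, asg, OR] using h1
      refine h3.mono ?_
      rw [List.length_cons]
      nlinarith
  refine (key l hs h).mono ?_
  exact hG.mul_le hlen

end lists

end Pool.Agent.Y528.KL
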