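import Pool.Agent.Y528.KL.Final
import Pool.Agent.Y935.KLKN
import Pool.Agent.Y287.KL.Cnt
import Pool.Agent.Y287.KL.BC
import Pool.Agent.Y511.KL.Final
import Pool.Agent.Y497.KLSS
import Pool.Agent.Y35.KL.KLPhpr
import Pool.Agent.Y529.KL.KLA
import Pool.Agent.Y529.KL.KLB2
import Pool.Agent.Y106.KLB

/-!
# Polynomial-size Frege proofs of the Kneser-Lovász theorem
-/

set_option autoImplicit false

namespace Pool.Agent.Y528.KL

open Pool.Agent.H555R2.PF Pool.Agent.H555R2.PF.Fm Pool.Agent.TH677.EF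

/-- the pigeonhole principle -/
theorem t_php' : T_PHP := Pool.Agent.Y511.KL.t_php Pool.Agent.Y287.KL.t_cnt

/-- everything together -/
theorem t_kl' (F : List Rule) (k : ℕ) : T_KL F k := by
  have hR : T_PHPR F := Pool.Agent.Y35.KL.t_phpr t_php' F
  have hS : ∀ w, T_SS F w := fun w => Pool.Agent.Y497.KLSS.t_ss F w
  refine t_kl F k ?_ ?_ (hS _)
  · exact t_a F k (Pool.Agent.Y287.KL.BC.t_bc Pool.Agent.Y935.KLKN.t_kn F k) hR hS
      (t_f1 F k) (t_f6a F k) (t_f6b F k) (t_f7 F k)
  · exact t_b F k (t_b2 F k hR (t_f4 F k) (t_f5 F k) (t_f6a F k) (t_f6b F k) (t_f7 F k))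
      (t_f3 F k) (hS _)

theorem choose_ge {n : ℕ} : ∀ k : ℕ, 1 ≤ k → k + 1 ≤ n → n ≤ n.choose k := by
  induction n with
  | zero => intro k _ h; omega
  | succ n ih =>
    intro k h1 h2
    obtain ⟨k, rfl⟩ : ∃ j, k = j + 1 := ⟨k - 1, by omega⟩
    rcases Nat.lt_or_ge (k + 1) n with h | h
    · have h3 := ih (k + 1) (by omega) (by omega)
      have h4 : 1 ≤ n.choose k := Nat.choose_pos (by omega)
      rw [Nat.choose_succ_succ']
      omega
    · have : n = k + 1 := by omega
      subst this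
      rw [Nat.choose_succ_self_right]

theorem KLf_size_ge {k n m : ℕ} (hk : 1 ≤ k) (hn : 2 * k ≤ n) : n + 2 ≤ (KLf k n m).size := by
  have h1 : (AND ((subs k n).map fun S => OR ((List.range m).map fun i => pv S i))).size =
      _ := AND_size _
  have h2 : (subs k n).length = n.choose k := by
    rw [subs, Finset.length_toList, Finset.card_powersetCard, Finset.card_range]
  have h3 := choose_ge (n := n) k hk (by omega)
  simp only [KLf, size, HT, h1, List.length_map, h2]
  omega

end Pool.Agent.Y528.KL
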