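import Pool.Agent.Y528.KL.Lists

/-!
# Natural deduction rules for `Sq`
-/

set_option autoImplicit false

namespace Pool.Agent.Y528.KL

open Pool.Agent.H555R2.PF Pool.Agent.H555R2.PF.Fm Pool.Agent.TH677.EF

variable {F : List Rule} {M : ℕ}

/-- falsity -/
def FF : Fm := neg (imp (var 0) (var 0))

theorem FF_size : FF.size = 4 := rfl

namespace Sq

variable {Γ Γ' : List Fm} {A B C X Y : Fm} {a b c e : ℕ}

theorem size (h : Sq F M Γ A e) : (AND Γ).size + A.size + 1 ≤ M := h.1

theorem up (h : Sq F M Γ A a) (hG : Good F M) (hab : a ≤ b) : Sq F M Γ A b :=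
  ⟨h.1, h.2.mono (hG.le_pow hab)⟩

/-! ### templates; `var 0` is reserved for the context, `var 1, …` are the formulas of `l` -/

theorem r0 (hG : Good F M) (B : Fm) (l : List Fm) (h : ∀ v : ℕ → Prop, B.eval v)
    (hs : B.size ≤ 80) (hB : (AND Γ).size + (B.subst (asg (AND Γ :: l))).size + 1 ≤ M) :
    Sq F M Γ (B.subst (asg (AND Γ :: l))) 2 := by
  refine ⟨hB, ?_⟩
  have h1 := hG.taut (imp (var 0) B) (fun v _ => h v) (by simp only [Fm.size]; omega)
    (AND Γ :: l) (e := 1) (by
      intro n hn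
      simp only [vars, Finset.mem_union, Finset.mem_singleton] at hn
      rw [pow_one]
      rcases hn with rfl | hn
      · have : asg (AND Γ :: l) 0 = AND Γ := rfl
        rw [this]; omega
      · exact (size_le_subst hn).trans (by omega))
  exact h1

theorem r1 (hG : Good F M) (A₁ B : Fm) (l : List Fm)
    (h : ∀ v : ℕ → Prop, A₁.eval v → B.eval v)
    (hs : A₁.size + B.size ≤ 80) (h1 : Sq F M Γ (A₁.subst (asg (AND Γ :: l))) e)
    (hB : (AND Γ).size + (B.subst (asg (AND Γ :: l))).size + 1 ≤ M) :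
    Sq F M Γ (B.subst (asg (AND Γ :: l))) (e + 3) := by
  refine ⟨hB, ?_⟩
  have h2 := hG.t1 (imp (var 0) A₁) (imp (var 0) B) (AND Γ :: l)
    (fun v g1 g2 => h v (g1 g2)) (by simp only [Fm.size]; omega) (e := e + 1)
    (h1.2.mono (hG.le_pow (by omega))) (by
      have : (B.subst (asg (AND Γ :: l))).size + (AND Γ).size + 1 ≤ M := by omega
      calc ((imp (var 0) B).subst (asg (AND Γ :: l))).size = (AND Γ).size +
            (B.subst (asg (AND Γ :: l))).size + 1 := rfl
        _ ≤ M ^ 1 := by rw [pow_one]; omega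
        _ ≤ M ^ (e + 1) := hG.le_pow (by omega))
  exact h2

theorem r2 (hG : Good F M) (A₁ A₂ B : Fm) (l : List Fm)
    (h : ∀ v : ℕ → Prop, A₁.eval v → A₂.eval v → B.eval v)
    (hs : A₁.size + A₂.size + B.size ≤ 80) (h1 : Sq F M Γ (A₁.subst (asg (AND Γ :: l))) a)
    (h2 : Sq F M Γ (A₂.subst (asg (AND Γ :: l))) b)
    (hB : (AND Γ).size + (B.subst (asg (AND Γ :: l))).size + 1 ≤ M) :
    Sq F M Γ (B.subst (asg (AND Γ :: l))) (max a b + 4) := by
  refine ⟨hB, ?_⟩
  have h3 := hG.t2 (imp (var 0) A₁) (imp (var 0) A₂) (imp (var 0) B) (AND Γ :: l)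
    (fun v g1 g2 g3 => h v (g1 g3) (g2 g3)) (by simp only [Fm.size]; omega) (e := max a b + 1)
    (h1.2.mono (hG.le_pow (by omega))) (h2.2.mono (hG.le_pow (by omega))) (by
      calc ((imp (var 0) B).subst (asg (AND Γ :: l))).size = (AND Γ).size +
            (B.subst (asg (AND Γ :: l))).size + 1 := rfl
        _ ≤ M ^ 1 := by rw [pow_one]; omega
        _ ≤ M ^ (max a b + 1) := hG.le_pow (by omega))
  exact h3

theorem r3 (hG : Good F M) (A₁ A₂ A₃ B : Fm) (l : List Fm)
    (h : ∀ v : ℕ → Prop, A₁.eval v → A₂.eval v → A₃.eval v → B.eval v)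
    (hs : A₁.size + A₂.size + A₃.size + B.size ≤ 80)
    (h1 : Sq F M Γ (A₁.subst (asg (AND Γ :: l))) a)
    (h2 : Sq F M Γ (A₂.subst (asg (AND Γ :: l))) b)
    (h3 : Sq F M Γ (A₃.subst (asg (AND Γ :: l))) c)
    (hB : (AND Γ).size + (B.subst (asg (AND Γ :: l))).size + 1 ≤ M) :
    Sq F M Γ (B.subst (asg (AND Γ :: l))) (max a (max b c) + 5) := by
  refine ⟨hB, ?_⟩
  have h4 := hG.t3 (imp (var 0) A₁) (imp (var 0) A₂) (imp (var 0) A₃) (imp (var 0) B)
    (AND Γ :: l)
    (fun v g1 g2 g3 g4 => h v (g1 g4) (g2 g4) (g3 g4)) (by simp only [Fm.size]; omega)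
    (e := max a (max b c) + 1)
    (h1.2.mono (hG.le_pow (by omega))) (h2.2.mono (hG.le_pow (by omega)))
    (h3.2.mono (hG.le_pow (by omega))) (by
      calc ((imp (var 0) B).subst (asg (AND Γ :: l))).size = (AND Γ).size +
            (B.subst (asg (AND Γ :: l))).size + 1 := rfl
        _ ≤ M ^ 1 := by rw [pow_one]; omega
        _ ≤ M ^ (max a (max b c) + 1) := hG.le_pow (by omega))
  exact h4

/-! ### structural rules -/

/-- a hypothesis -/
theorem hyp (hG : Good F M) (h : A ∈ Γ) (hs : (AND Γ).size + A.size + 1 ≤ M) :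
    Sq F M Γ A 4 := by
  refine ⟨hs, ?_⟩
  have h0 := length_le_AND Γ
  exact hG.AND_mem h (e := 1) (by omega) (by rw [pow_one]; omega)

/-- a formula with a proof -/
theorem ofPf (hG : Good F M) (h : Pf F A (M ^ e)) (hs : (AND Γ).size + A.size + 1 ≤ M) :
    Sq F M Γ A (e + 3) := by
  refine ⟨hs, ?_⟩
  have h2 := hG.t1 (var 1) (imp (var 0) (var 1)) [AND Γ, A]
    (fun v g1 _ => g1) (by simp only [Fm.size]; omega) (e := e + 1)
    (h.mono (hG.le_pow (by omega))) (by
      calc ((imp (var 0) (var 1)).subst (asg [AND Γ, A])).size = (AND Γ).size + A.size + 1 := rfl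
        _ ≤ M ^ 1 := by rw [pow_one]; omega
        _ ≤ M ^ (e + 1) := hG.le_pow (by omega))
  exact h2

theorem pf (hG : Good F M) (h : Sq F M [] A e) : Pf F A (M ^ (e + 3)) := by
  have h2 := hG.t1 (imp (imp (var 0) (var 0)) (var 1)) (var 1) [var 0, A]
    (fun v g1 => g1 (fun g => g)) (by simp only [Fm.size]; omega) (e := e + 1)
    (h.2.mono (hG.le_pow (by omega))) (by
      have := h.size
      calc ((var 1).subst (asg [var 0, A])).size = A.size := rfl
        _ ≤ M ^ 1 := by rw [pow_one]; omega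
        _ ≤ M ^ (e + 1) := hG.le_pow (by omega))
  exact h2

/-- chaining implications between contexts -/
theorem ctx (hG : Good F M) (h : Sq F M Γ A e) (hΓ : ∀ X ∈ Γ, Sq F M Γ' X a)
    (hs : (AND Γ').size + A.size + 1 ≤ M) : Sq F M Γ' A (max e (a + 7) + 5) := by
  refine ⟨hs, ?_⟩
  have hs1 := h.size
  have h0 := length_le_AND Γ
  have hp : M ≤ M ^ (a + 2) := by
    calc M = M ^ 1 := (pow_one M).symm
      _ ≤ _ := hG.le_pow (by omega)
  have hp2 : 2 * M ≤ M ^ (a + 2) := by
    have := hG.two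
    calc 2 * M ≤ M * M := Nat.mul_le_mul_right _ (by omega)
      _ = M ^ 2 := by ring
      _ ≤ _ := hG.le_pow (by omega)
  have h1 : Pf F (imp (AND Γ') (AND Γ)) (M ^ (a + 6)) := by
    refine hG.AND_intro (e := a + 2) (by omega) ?_ fun X hX => ?_
    · simp only [Fm.size]; omega
    · exact (hΓ X hX).2.mono (hG.le_pow (by omega))
  have h2 := hG.t2 (imp (var 0) (var 1)) (imp (var 1) (var 2)) (imp (var 0) (var 2))
    [AND Γ', AND Γ, A] (fun v g1 g2 g3 => g2 (g1 g3)) (by simp only [Fm.size]; omega)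
    (e := max e (a + 7) + 1)
    (h1.mono (hG.le_pow (by omega))) (h.2.mono (hG.le_pow (by omega))) (by
      calc ((imp (var 0) (var 2)).subst (asg [AND Γ', AND Γ, A])).size
            = (AND Γ').size + A.size + 1 := rfl
        _ ≤ M ^ 1 := by rw [pow_one]; omega
        _ ≤ M ^ (max e (a + 7) + 1) := hG.le_pow (by omega))
  exact Pf.mono h2 (hG.le_pow (by omega))

/-- weakening -/
theorem weak (hG : Good F M) (h : Sq F M Γ A e) (hsub : ∀ X ∈ Γ, X ∈ Γ')
    (hs : (AND Γ').size + A.size + 1 ≤ M) : Sq F M Γ' A (max e 13 + 5) := by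
  refine ⟨hs, ?_⟩
  have hs1 := h.size
  have h0 := length_le_AND Γ
  have h0' := length_le_AND Γ'
  have hp2 : 2 * M ≤ M ^ 6 := by
    have := hG.two
    calc 2 * M ≤ M * M := Nat.mul_le_mul_right _ (by omega)
      _ = M ^ 2 := by ring
      _ ≤ _ := hG.le_pow (by omega)
  have h1 : Pf F (imp (AND Γ') (AND Γ)) (M ^ 10) := by
    refine hG.AND_intro (e := 6) (by omega) ?_ fun X hX => ?_
    · simp only [Fm.size]; omega
    · exact (hG.AND_mem (hsub X hX) (e := 1) (by omega) (by rw [pow_one]; omega)).mono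
        (hG.le_pow (by omega))
  have h2 := hG.t2 (imp (var 0) (var 1)) (imp (var 1) (var 2)) (imp (var 0) (var 2))
    [AND Γ', AND Γ, A] (fun v g1 g2 g3 => g2 (g1 g3)) (by simp only [Fm.size]; omega)
    (e := max e 13 + 1)
    (h1.mono (hG.le_pow (by omega))) (h.2.mono (hG.le_pow (by omega))) (by
      calc ((imp (var 0) (var 2)).subst (asg [AND Γ', AND Γ, A])).size
            = (AND Γ').size + A.size + 1 := rfl
        _ ≤ M ^ 1 := by rw [pow_one]; omega
        _ ≤ M ^ (max e 13 + 1) := hG.le_pow (by omega))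
  exact Pf.mono h2 (hG.le_pow (by omega))

/-- deduction theorem -/
theorem ded (hG : Good F M) (h : Sq F M (X :: Γ) A e) : Sq F M Γ (imp X A) (e + 3) := by
  have hs := h.size
  simp only [AND, Fm.size] at hs
  refine ⟨by simp only [Fm.size]; omega, ?_⟩
  have h2 := hG.t1 (imp (and (var 1) (var 0)) (var 2)) (imp (var 0) (imp (var 1) (var 2)))
    [AND Γ, X, A] (fun v g1 g2 g3 => g1 ⟨g3, g2⟩) (by simp only [Fm.size]; omega) (e := e + 1)
    (h.2.mono (hG.le_pow (by omega))) (by
      calc ((imp (var 0) (imp (var 1) (var 2))).subst (asg [AND Γ, X, A])).size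
            = (AND Γ).size + (X.size + A.size + 1) + 1 := rfl
        _ ≤ M ^ 1 := by rw [pow_one]; omega
        _ ≤ M ^ (e + 1) := hG.le_pow (by omega))
  exact h2

theorem und (hG : Good F M) (h : Sq F M Γ (imp X A) e) : Sq F M (X :: Γ) A (e + 3) := by
  have hs := h.size
  simp only [Fm.size] at hs
  refine ⟨by simp only [AND, Fm.size]; omega, ?_⟩
  have h2 := hG.t1 (imp (var 0) (imp (var 1) (var 2))) (imp (and (var 1) (var 0)) (var 2))
    [AND Γ, X, A] (fun v g1 g2 => g1 g2.2 g2.1) (by simp only [Fm.size]; omega) (e := e + 1)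
    (h.2.mono (hG.le_pow (by omega))) (by
      calc ((imp (and (var 1) (var 0)) (var 2)).subst (asg [AND Γ, X, A])).size
            = X.size + (AND Γ).size + 1 + A.size + 1 := rfl
        _ ≤ M ^ 1 := by rw [pow_one]; omega
        _ ≤ M ^ (e + 1) := hG.le_pow (by omega))
  exact h2

/-- cut -/
theorem cut (hG : Good F M) (h1 : Sq F M Γ A a) (h2 : Sq F M (A :: Γ) B b) :
    Sq F M Γ B (max a b + 4) := by
  have hs := h2.size
  simp only [AND, Fm.size] at hs
  refine ⟨by simp only [Fm.size]; omega, ?_⟩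
  have h3 := hG.t2 (imp (var 0) (var 1)) (imp (and (var 1) (var 0)) (var 2))
    (imp (var 0) (var 2)) [AND Γ, A, B] (fun v g1 g2 g3 => g2 ⟨g1 g3, g3⟩)
    (by simp only [Fm.size]; omega) (e := max a b + 1)
    (h1.2.mono (hG.le_pow (by omega))) (h2.2.mono (hG.le_pow (by omega))) (by
      calc ((imp (var 0) (var 2)).subst (asg [AND Γ, A, B])).size
            = (AND Γ).size + B.size + 1 := rfl
        _ ≤ M ^ 1 := by rw [pow_one]; omega
        _ ≤ M ^ (max a b + 1) := hG.le_pow (by omega))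
  exact h3

/-- case distinction -/
theorem cases (hG : Good F M) (h1 : Sq F M (X :: Γ) A a) (h2 : Sq F M (neg X :: Γ) A b) :
    Sq F M Γ A (max a b + 4) := by
  have hs := h2.size
  simp only [AND, Fm.size] at hs
  refine ⟨by simp only [Fm.size]; omega, ?_⟩
  have h3 := hG.t2 (imp (and (var 1) (var 0)) (var 2)) (imp (and (neg (var 1)) (var 0)) (var 2))
    (imp (var 0) (var 2)) [AND Γ, X, A] (fun v g1 g2 g3 => by
      by_cases h : v 1
      · exact g1 ⟨h, g3⟩
      · exact g2 ⟨h, g3⟩)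
    (by simp only [Fm.size]; omega) (e := max a b + 1)
    (h1.2.mono (hG.le_pow (by omega))) (h2.2.mono (hG.le_pow (by omega))) (by
      calc ((imp (var 0) (var 2)).subst (asg [AND Γ, X, A])).size
            = (AND Γ).size + A.size + 1 := rfl
        _ ≤ M ^ 1 := by rw [pow_one]; omega
        _ ≤ M ^ (max a b + 1) := hG.le_pow (by omega))
  exact h3

/-- `Γ ⊢ A` and `A ⊢ B` give `Γ ⊢ B` -/
theorem trans (hG : Good F M) (h1 : Sq F M Γ A a) (h2 : Sq F M [A] B b)
    (hs : (AND Γ).size + B.size + 1 ≤ M) : Sq F M Γ B (max a b + 4) := by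
  refine ⟨hs, ?_⟩
  have h3 := hG.t2 (imp (var 0) (var 1)) (imp (and (var 1) (imp (var 3) (var 3))) (var 2))
    (imp (var 0) (var 2)) [AND Γ, A, B, var 0] (fun v g1 g2 g3 => g2 ⟨g1 g3, fun g => g⟩)
    (by simp only [Fm.size]; omega) (e := max a b + 1)
    (h1.2.mono (hG.le_pow (by omega))) (h2.2.mono (hG.le_pow (by omega))) (by
      calc ((imp (var 0) (var 2)).subst (asg [AND Γ, A, B, var 0])).size
            = (AND Γ).size + B.size + 1 := rfl
        _ ≤ M ^ 1 := by rw [pow_one]; omega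
        _ ≤ M ^ (max a b + 1) := hG.le_pow (by omega))
  exact h3

/-! ### connectives -/

theorem mp (hG : Good F M) (h1 : Sq F M Γ (imp A B) a) (h2 : Sq F M Γ A b) :
    Sq F M Γ B (max a b + 4) := by
  have hs := h1.size
  simp only [Fm.size] at hs
  exact r2 hG (imp (var 1) (var 2)) (var 1) (var 2) [A, B] (fun v g1 g2 => g1 g2)
    (by simp only [Fm.size]; omega) h1 h2 (by
      have : (var 2).subst (asg (AND Γ :: [A, B])) = B := rfl
      rw [this]; omega)

theorem andI (hG : Good F M) (h1 : Sq F M Γ A a) (h2 : Sq F M Γ B b)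
    (hs : (AND Γ).size + (A.size + B.size + 1) + 1 ≤ M) :
    Sq F M Γ (and A B) (max a b + 4) :=
  r2 hG (var 1) (var 2) (and (var 1) (var 2)) [A, B] (fun v g1 g2 => ⟨g1, g2⟩)
    (by simp only [Fm.size]; omega) h1 h2 hs

theorem andL (hG : Good F M) (h1 : Sq F M Γ (and A B) a) : Sq F M Γ A (a + 3) := by
  have hs := h1.size
  simp only [Fm.size] at hs
  exact r1 hG (and (var 1) (var 2)) (var 1) [A, B] (fun v g1 => g1.1)
    (by simp only [Fm.size]; omega) h1 (by
      have : (var 1).subst (asg (AND Γ :: [A, B])) = A := rfl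
      rw [this]; omega)

theorem andR (hG : Good F M) (h1 : Sq F M Γ (and A B) a) : Sq F M Γ B (a + 3) := by
  have hs := h1.size
  simp only [Fm.size] at hs
  exact r1 hG (and (var 1) (var 2)) (var 2) [A, B] (fun v g1 => g1.2)
    (by simp only [Fm.size]; omega) h1 (by
      have : (var 2).subst (asg (AND Γ :: [A, B])) = B := rfl
      rw [this]; omega)

theorem orL (hG : Good F M) (h1 : Sq F M Γ A a)
    (hs : (AND Γ).size + (A.size + B.size + 1) + 1 ≤ M) : Sq F M Γ (or A B) (a + 3) :=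
  r1 hG (var 1) (or (var 1) (var 2)) [A, B] (fun v g1 => Or.inl g1)
    (by simp only [Fm.size]; omega) h1 hs

theorem orR (hG : Good F M) (h1 : Sq F M Γ B a)
    (hs : (AND Γ).size + (A.size + B.size + 1) + 1 ≤ M) : Sq F M Γ (or A B) (a + 3) :=
  r1 hG (var 2) (or (var 1) (var 2)) [A, B] (fun v g1 => Or.inr g1)
    (by simp only [Fm.size]; omega) h1 hs

theorem orE (hG : Good F M) (h1 : Sq F M Γ (or A B) a) (h2 : Sq F M (A :: Γ) C b)
    (h3 : Sq F M (B :: Γ) C c) : Sq F M Γ C (max a (max b c) + 8) := by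
  have hs := h1.size
  have hs2 := h2.size
  have hs3 := h3.size
  simp only [AND, Fm.size] at hs hs2 hs3
  refine ⟨by simp only [Fm.size]; omega, ?_⟩
  have h4 := hG.t3 (imp (var 0) (or (var 1) (var 2))) (imp (and (var 1) (var 0)) (var 3))
    (imp (and (var 2) (var 0)) (var 3))
    (imp (var 0) (var 3)) [AND Γ, A, B, C] (fun v g1 g2 g3 g4 => by
      rcases g1 g4 with h | h
      · exact g2 ⟨h, g4⟩
      · exact g3 ⟨h, g4⟩)
    (by simp only [Fm.size]; omega) (e := max a (max b c) + 1)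
    (h1.2.mono (hG.le_pow (by omega))) (h2.2.mono (hG.le_pow (by omega)))
    (h3.2.mono (hG.le_pow (by omega))) (by
      calc ((imp (var 0) (var 3)).subst (asg [AND Γ, A, B, C])).size
            = (AND Γ).size + C.size + 1 := rfl
        _ ≤ M ^ 1 := by rw [pow_one]; omega
        _ ≤ M ^ (max a (max b c) + 1) := hG.le_pow (by omega))
  exact Pf.mono h4 (hG.le_pow (by omega))

/-- introduction of a negation -/
theorem negI (hG : Good F M) (h : Sq F M (X :: Γ) FF e) : Sq F M Γ (neg X) (e + 3) := by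
  have hs := h.size
  rw [FF_size] at hs
  simp only [AND, Fm.size] at hs
  refine ⟨by simp only [Fm.size]; omega, ?_⟩
  have h2 := hG.t1 (imp (and (var 1) (var 0)) (neg (imp (var 2) (var 2))))
    (imp (var 0) (neg (var 1)))
    [AND Γ, X, var 0] (fun v g1 g2 g3 => g1 ⟨g3, g2⟩ (fun g => g))
    (by simp only [Fm.size]; omega) (e := e + 1)
    (h.2.mono (hG.le_pow (by omega))) (by
      calc ((imp (var 0) (neg (var 1))).subst (asg [AND Γ, X, var 0])).size
            = (AND Γ).size + (X.size + 1) + 1 := rfl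
        _ ≤ M ^ 1 := by rw [pow_one]; omega
        _ ≤ M ^ (e + 1) := hG.le_pow (by omega))
  exact h2

/-- proof by contradiction -/
theorem byContra (hG : Good F M) (h : Sq F M (neg X :: Γ) FF e) : Sq F M Γ X (e + 3) := by
  have hs := h.size
  rw [FF_size] at hs
  simp only [AND, Fm.size] at hs
  refine ⟨by simp only [Fm.size]; omega, ?_⟩
  have h2 := hG.t1 (imp (and (neg (var 1)) (var 0)) (neg (imp (var 2) (var 2))))
    (imp (var 0) (var 1))
    [AND Γ, X, var 0] (fun v g1 g2 => by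
      by_contra h
      exact g1 ⟨h, g2⟩ (fun g => g))
    (by simp only [Fm.size]; omega) (e := e + 1)
    (h.2.mono (hG.le_pow (by omega))) (by
      calc ((imp (var 0) (var 1)).subst (asg [AND Γ, X, var 0])).size
            = (AND Γ).size + X.size + 1 := rfl
        _ ≤ M ^ 1 := by rw [pow_one]; omega
        _ ≤ M ^ (e + 1) := hG.le_pow (by omega))
  exact h2

/-- contradiction -/
theorem contra (hG : Good F M) (h1 : Sq F M Γ A a) (h2 : Sq F M Γ (neg A) b)
    (hs : (AND Γ).size + B.size + 1 ≤ M) : Sq F M Γ B (max a b + 4) :=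
  r2 hG (var 1) (neg (var 1)) (var 2) [A, B] (fun v g1 g2 => absurd g1 g2)
    (by simp only [Fm.size]; omega) h1 h2 hs

/-- a contradiction, with conclusion `FF` -/
theorem contraF (hG : Good F M) (h1 : Sq F M Γ A a) (h2 : Sq F M Γ (neg A) b)
    (hs : (AND Γ).size + 5 ≤ M) : Sq F M Γ FF (max a b + 4) :=
  contra hG h1 h2 (by rw [FF_size]; omega)

/-- ex falso -/
theorem exf (hG : Good F M) (h1 : Sq F M Γ FF a)
    (hs : (AND Γ).size + B.size + 1 ≤ M) : Sq F M Γ B (a + 3) :=
  r1 hG (neg (imp (var 2) (var 2))) (var 1) [B, var 0] (fun v g1 => absurd (fun g => g) g1)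
    (by simp only [Fm.size]; omega) h1 hs

/-- double negation -/
theorem dneg (hG : Good F M) (h1 : Sq F M Γ (neg (neg A)) a) : Sq F M Γ A (a + 3) := by
  have hs := h1.size
  simp only [Fm.size] at hs
  exact r1 hG (neg (neg (var 1))) (var 1) [A] (fun v g1 => not_not.1 g1)
    (by simp only [Fm.size]; omega) h1 (by
      have : (var 1).subst (asg (AND Γ :: [A])) = A := rfl
      rw [this]; omega)

/-! ### lists -/

variable {α : Type*}

theorem ANDI (hG : Good F M) {l : List α} {f : α → Fm} (h : ∀ x ∈ l, Sq F M Γ (f x) e)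
    (hs : (AND Γ).size + (AND (l.map f)).size + 1 ≤ M) : Sq F M Γ (AND (l.map f)) (e + 5) := by
  refine ⟨hs, ?_⟩
  have h0 := length_le_AND (l.map f)
  refine (hG.AND_intro (e := e + 1) (by omega) ?_ fun X hX => ?_).mono (hG.le_pow (by omega))
  · calc (imp (AND Γ) (AND (l.map f))).size ≤ M ^ 1 := by
          rw [pow_one]; simp only [Fm.size]; omega
      _ ≤ _ := hG.le_pow (by omega)
  · obtain ⟨x, hx, rfl⟩ := List.mem_map.1 hX
    exact (h x hx).2.mono (hG.le_pow (by omega))

theorem ANDE (hG : Good F M) {l : List α} {f : α → Fm} (h : Sq F M Γ (AND (l.map f)) e) {x : α}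
    (hx : x ∈ l) : Sq F M Γ (f x) (max e 4 + 4) := by
  have hm : f x ∈ l.map f := List.mem_map.2 ⟨x, hx, rfl⟩
  have hs := h.size
  have h1 := mem_AND_size hm
  have h0 := length_le_AND (l.map f)
  have h2 := length_le_AND Γ
  refine ⟨by simp only [Fm.size]; omega, ?_⟩
  have h3 := hG.AND_mem hm (e := 1) (by omega) (by rw [pow_one]; omega)
  have h4 := hG.t2 (imp (var 0) (var 1)) (imp (var 1) (var 2)) (imp (var 0) (var 2))
    [AND Γ, AND (l.map f), f x] (fun v g1 g2 g3 => g2 (g1 g3)) (by simp only [Fm.size]; omega)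
    (e := max e 4 + 1)
    (h.2.mono (hG.le_pow (by omega))) (Pf.mono h3 (hG.le_pow (by omega))) (by
      calc ((imp (var 0) (var 2)).subst (asg [AND Γ, AND (l.map f), f x])).size
            = (AND Γ).size + (f x).size + 1 := rfl
        _ ≤ M ^ 1 := by rw [pow_one]; omega
        _ ≤ M ^ (max e 4 + 1) := hG.le_pow (by omega))
  exact Pf.mono h4 (hG.le_pow (by omega))

theorem ORI (hG : Good F M) {l : List α} {f : α → Fm} {x : α} (h : Sq F M Γ (f x) e)
    (hx : x ∈ l) (hs : (AND Γ).size + (OR (l.map f)).size + 1 ≤ M) :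
    Sq F M Γ (OR (l.map f)) (max e 4 + 4) := by
  have hm : f x ∈ l.map f := List.mem_map.2 ⟨x, hx, rfl⟩
  have h1 := mem_OR_size hm
  have h0 := OR_size (l.map f)
  refine ⟨hs, ?_⟩
  have h3 := hG.OR_mem hm (e := 1) (by omega) (by rw [pow_one]; omega)
  have h4 := hG.t2 (imp (var 0) (var 1)) (imp (var 1) (var 2)) (imp (var 0) (var 2))
    [AND Γ, f x, OR (l.map f)] (fun v g1 g2 g3 => g2 (g1 g3)) (by simp only [Fm.size]; omega)
    (e := max e 4 + 1)
    (h.2.mono (hG.le_pow (by omega))) (Pf.mono h3 (hG.le_pow (by omega))) (by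
      calc ((imp (var 0) (var 2)).subst (asg [AND Γ, f x, OR (l.map f)])).size
            = (AND Γ).size + (OR (l.map f)).size + 1 := rfl
        _ ≤ M ^ 1 := by rw [pow_one]; omega
        _ ≤ M ^ (max e 4 + 1) := hG.le_pow (by omega))
  exact Pf.mono h4 (hG.le_pow (by omega))

theorem ORE (hG : Good F M) {l : List α} {f : α → Fm} (h : Sq F M Γ (OR (l.map f)) a)
    (h1 : ∀ x ∈ l, Sq F M (f x :: Γ) B b) (hs : (AND Γ).size + B.size + 1 ≤ M) :
    Sq F M Γ B (max a b + 12) := by
  have hso := h.size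
  have h0 := OR_size (l.map f)
  refine ⟨hs, ?_⟩
  have h2 : Pf F (imp (and (OR (l.map f)) (AND Γ)) B) (M ^ (b + 2 + 4)) := by
    refine hG.OR_elim (e := b + 2) (by omega) ?_ fun X hX => ?_
    · have := hG.two
      calc (imp (and (OR (l.map f)) (AND Γ)) B).size ≤ 2 * M := by simp only [Fm.size]; omega
        _ ≤ M * M := Nat.mul_le_mul_right _ (by omega)
        _ = M ^ 2 := by ring
        _ ≤ M ^ (b + 2) := hG.le_pow (by omega)
    · obtain ⟨x, hx, rfl⟩ := List.mem_map.1 hX
      exact (h1 x hx).2.mono (hG.le_pow (by omega))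
  have h4 := hG.t2 (imp (var 0) (var 1)) (imp (and (var 1) (var 0)) (var 2))
    (imp (var 0) (var 2))
    [AND Γ, OR (l.map f), B] (fun v g1 g2 g3 => g2 ⟨g1 g3, g3⟩) (by simp only [Fm.size]; omega)
    (e := max a (b + 6) + 1)
    (h.2.mono (hG.le_pow (by omega))) (Pf.mono h2 (hG.le_pow (by omega))) (by
      calc ((imp (var 0) (var 2)).subst (asg [AND Γ, OR (l.map f), B])).size
            = (AND Γ).size + B.size + 1 := rfl
        _ ≤ M ^ 1 := by rw [pow_one]; omega
        _ ≤ M ^ (max a (b + 6) + 1) := hG.le_pow (by omega))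
  exact Pf.mono h4 (hG.le_pow (by omega))

/-- `¬ OR` elimination -/
theorem NORE (hG : Good F M) {l : List α} {f : α → Fm} (h : Sq F M Γ (neg (OR (l.map f))) e)
    {x : α} (hx : x ∈ l) : Sq F M Γ (neg (f x)) (max e 4 + 4) := by
  have hm : f x ∈ l.map f := List.mem_map.2 ⟨x, hx, rfl⟩
  have hs := h.size
  simp only [Fm.size] at hs
  have h1 := mem_OR_size hm
  have h0 := OR_size (l.map f)
  have h00 := length_le_AND Γ
  refine ⟨by simp only [Fm.size]; omega, ?_⟩
  have h3 := hG.OR_mem hm (e := 1) (by omega) (by rw [pow_one]; omega)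
  have h4 := hG.t2 (imp (var 0) (neg (var 2))) (imp (var 1) (var 2)) (imp (var 0) (neg (var 1)))
    [AND Γ, f x, OR (l.map f)] (fun v g1 g2 g3 g4 => g1 g3 (g2 g4))
    (by simp only [Fm.size]; omega) (e := max e 4 + 1)
    (h.2.mono (hG.le_pow (by omega))) (Pf.mono h3 (hG.le_pow (by omega))) (by
      calc ((imp (var 0) (neg (var 1))).subst (asg [AND Γ, f x, OR (l.map f)])).size
            = (AND Γ).size + ((f x).size + 1) + 1 := rfl
        _ ≤ M ^ 1 := by rw [pow_one]; omega
        _ ≤ M ^ (max e 4 + 1) := hG.le_pow (by omega))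
  exact Pf.mono h4 (hG.le_pow (by omega))

/-- `¬ OR` introduction -/
theorem NORI (hG : Good F M) {l : List α} {f : α → Fm}
    (h : ∀ x ∈ l, Sq F M Γ (neg (f x)) e)
    (hs : (AND Γ).size + (OR (l.map f)).size + 2 ≤ M) :
    Sq F M Γ (neg (OR (l.map f))) (e + 12) := by
  have h0 := length_le_AND Γ
  have h01 := OR_size (l.map f)
  have h2 : Pf F (imp (and (OR (l.map f)) (AND Γ)) FF) (M ^ (e + 3 + 4)) := by
    refine hG.OR_elim (e := e + 3) (by omega) ?_ fun X hX => ?_
    · have := hG.two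
      calc (imp (and (OR (l.map f)) (AND Γ)) FF).size ≤ 2 * M := by
            simp only [Fm.size, FF_size]; omega
        _ ≤ M * M := Nat.mul_le_mul_right _ (by omega)
        _ = M ^ 2 := by ring
        _ ≤ M ^ (e + 3) := hG.le_pow (by omega)
    · obtain ⟨x, hx, rfl⟩ := List.mem_map.1 hX
      have hm := mem_OR_size hX
      exact hG.t1 (imp (var 0) (neg (var 1)))
        (imp (and (var 1) (var 0)) (neg (imp (var 2) (var 2))))
        [AND Γ, f x, var 0] (fun v g1 g2 => absurd g2.1 (g1 g2.2))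
        (by simp only [Fm.size]; omega) (e := e + 1)
        ((h x hx).2.mono (hG.le_pow (by omega))) (by
          calc ((imp (and (var 1) (var 0)) (neg (imp (var 2) (var 2)))).subst
                (asg [AND Γ, f x, var 0])).size
                = (f x).size + (AND Γ).size + 1 + 4 + 1 := rfl
            _ ≤ M ^ 1 := by rw [pow_one]; omega
            _ ≤ M ^ (e + 1) := hG.le_pow (by omega))
  refine ⟨by simp only [Fm.size]; omega, ?_⟩
  have h4 := hG.t1 (imp (and (var 1) (var 0)) (neg (imp (var 2) (var 2))))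
    (imp (var 0) (neg (var 1)))
    [AND Γ, OR (l.map f), var 0] (fun v g1 g2 g3 => g1 ⟨g3, g2⟩ (fun g => g))
    (by simp only [Fm.size]; omega) (e := e + 7)
    h2 (by
      calc ((imp (var 0) (neg (var 1))).subst (asg [AND Γ, OR (l.map f), var 0])).size
            = (AND Γ).size + ((OR (l.map f)).size + 1) + 1 := rfl
        _ ≤ M ^ 1 := by rw [pow_one]; omega
        _ ≤ M ^ (e + 7) := hG.le_pow (by omega))
  exact Pf.mono h4 (hG.le_pow (by omega))

/-- `¬ AND` elimination -/
theorem NANDE (hG : Good F M) {l : List α} {f : α → Fm}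
    (h : Sq F M Γ (neg (AND (l.map f))) e)
    (hs : (AND Γ).size + (AND (l.map f)).size + 2 * (OR (l.map fun x => neg (f x))).size + 20
      ≤ M) :
    Sq F M Γ (OR (l.map fun x => neg (f x))) (e + 40) := by
  have h0 := length_le_AND Γ
  set O := OR (l.map fun x => neg (f x)) with hO
  have hsO : (AND (neg O :: Γ)).size = O.size + 1 + (AND Γ).size + 1 := by
    simp only [AND, Fm.size]
  refine (byContra hG (e := e + 37) ?_).up hG (by omega)
  have h1 : Sq F M (neg O :: Γ) (AND (l.map f)) 20 := by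
    refine (ANDI hG (e := 15) (fun x hx => ?_) (by omega)).up hG (by omega)
    have h2 : Sq F M (neg O :: Γ) (neg O) 4 := hyp hG (by simp) (by
      simp only [Fm.size]; omega)
    exact (dneg hG (NORE hG h2 hx)).up hG (by omega)
  have h2 : Sq F M (neg O :: Γ) (neg (AND (l.map f))) (max e 13 + 5) :=
    weak hG h (by intro X hX; simp [hX]) (by simp only [Fm.size]; omega)
  exact (contraF hG h1 h2 (by omega)).up hG (by omega)

end Sq

end Pool.Agent.Y528.KL
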