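import Pool.Agent.Y528.KL.Least

/-!
# Sizes of the formulas

Every formula of `KDefs` has size at most `(n + 2) ^ (4 k ^ 2 + 2 k + 34)` when `m ≤ n`.
-/

set_option autoImplicit false

namespace Pool.Agent.Y528.KL

open Pool.Agent.H555R2.PF Pool.Agent.H555R2.PF.Fm Pool.Agent.TH677.EF

/-! ### powers of `N = n + 2` -/

theorem pw_mono (n : ℕ) {a b : ℕ} (h : a ≤ b) : (n + 2) ^ a ≤ (n + 2) ^ b :=
  Nat.pow_le_pow_right (by omega) h

theorem pw_pos (n a : ℕ) : 1 ≤ (n + 2) ^ a := Nat.one_le_pow _ _ (by omega)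

/-- `2 ^ t N ^ a ≤ N ^ b` if `a + t ≤ b` -/
theorem pw_two (n : ℕ) {a b : ℕ} (t : ℕ) (h : a + t ≤ b) : 2 ^ t * (n + 2) ^ a ≤ (n + 2) ^ b := by
  calc 2 ^ t * (n + 2) ^ a ≤ (n + 2) ^ t * (n + 2) ^ a :=
        Nat.mul_le_mul_right _ (Nat.pow_le_pow_left (by omega) t)
    _ = (n + 2) ^ (a + t) := by rw [← pow_add, add_comm t a]
    _ ≤ _ := pw_mono n h

/-- `2 ^ t N ^ a ≤ M` if `N ^ K ≤ M` and `a + t ≤ K` -/
theorem big {n K M a : ℕ} (hM : (n + 2) ^ K ≤ M) (t : ℕ) (h : a + t ≤ K) :
    2 ^ t * (n + 2) ^ a ≤ M := (pw_two n t h).trans hM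

/-- constants are bounded by powers -/
theorem const_le (n c : ℕ) : c ≤ (n + 2) ^ c :=
  (Nat.lt_two_pow_self).le.trans (Nat.pow_le_pow_left (by omega) c)

/-- conjunctions of at most `N ^ a` formulas of size at most `N ^ b` -/
theorem AND_pow {α : Type*} {l : List α} {f : α → Fm} {n a b c : ℕ} (hl : l.length ≤ (n + 2) ^ a)
    (h : ∀ x ∈ l, (f x).size ≤ (n + 2) ^ b) (hc : a + b + 3 ≤ c) :
    (AND (l.map f)).size ≤ (n + 2) ^ c := by
  refine (AND_map_size_le h).trans ?_
  have h1 := pw_two n (a := a + b) 3 hc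
  have h2 : l.length * ((n + 2) ^ b + 1) ≤ (n + 2) ^ a * ((n + 2) ^ b + 1) :=
    Nat.mul_le_mul_right _ hl
  have h3 := pw_pos n a
  have h4 := pw_pos n b
  rw [pow_add] at h1
  have h5 : (n + 2) ^ a ≤ (n + 2) ^ a * (n + 2) ^ b := Nat.le_mul_of_pos_right _ (by omega)
  have h6 : 1 ≤ (n + 2) ^ a * (n + 2) ^ b := by nlinarith
  nlinarith

/-- disjunctions of at most `N ^ a` formulas of size at most `N ^ b` -/
theorem OR_pow {α : Type*} {l : List α} {f : α → Fm} {n a b c : ℕ} (hl : l.length ≤ (n + 2) ^ a)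
    (h : ∀ x ∈ l, (f x).size ≤ (n + 2) ^ b) (hc : a + b + 3 ≤ c) :
    (OR (l.map f)).size ≤ (n + 2) ^ c := by
  refine (OR_map_size_le h).trans ?_
  have h1 := pw_two n (a := a + b) 3 hc
  have h2 : l.length * ((n + 2) ^ b + 1) ≤ (n + 2) ^ a * ((n + 2) ^ b + 1) :=
    Nat.mul_le_mul_right _ hl
  have h3 := pw_pos n a
  have h4 := pw_pos n b
  rw [pow_add] at h1
  have h5 : (n + 2) ^ a ≤ (n + 2) ^ a * (n + 2) ^ b := Nat.le_mul_of_pos_right _ (by omega)
  have h6 : 1 ≤ (n + 2) ^ a * (n + 2) ^ b := by nlinarith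
  nlinarith

theorem Least_pow {α : Type} [DecidableEq α] {l : List α} {P : α → Fm} {z : α} {n a b c : ℕ}
    (hl : l.length ≤ (n + 2) ^ a)
    (h : ∀ x ∈ l, (P x).size ≤ (n + 2) ^ b) (hz : (P z).size ≤ (n + 2) ^ b)
    (hc : a + b + 3 ≤ c) : (Least l P z).size ≤ (n + 2) ^ c := by
  refine (Least_size_le l P z h hz).trans ?_
  have h1 := pw_two n (a := a + b) 3 hc
  have h2 : l.length * ((n + 2) ^ b + 2) ≤ (n + 2) ^ a * ((n + 2) ^ b + 2) :=
    Nat.mul_le_mul_right _ hl
  have h3 := pw_pos n a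
  have h4 := pw_pos n b
  rw [pow_add] at h1
  have h5 : (n + 2) ^ a ≤ (n + 2) ^ a * (n + 2) ^ b := Nat.le_mul_of_pos_right _ (by omega)
  have h5' : (n + 2) ^ b ≤ (n + 2) ^ a * (n + 2) ^ b := Nat.le_mul_of_pos_left _ (by omega)
  have h6 : 1 ≤ (n + 2) ^ a * (n + 2) ^ b := by nlinarith
  have h7 : (n + 2) ^ a * ((n + 2) ^ b + 2) = (n + 2) ^ a * (n + 2) ^ b + 2 * (n + 2) ^ a := by
    ring
  omega

/-! ### lists -/

theorem subs_nodup (k n : ℕ) : (subs k n).Nodup := Finset.nodup_toList _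

theorem mem_subs {k n : ℕ} {S : Finset ℕ} : S ∈ subs k n ↔ S ⊆ Finset.range n ∧ S.card = k := by
  rw [subs, Finset.mem_toList, Finset.mem_powersetCard]

theorem mem_subsLt {k n : ℕ} {S : Finset ℕ} : S ∈ subsLt k n ↔ S ⊆ Finset.range n ∧ S.card < k := by
  rw [subsLt, Finset.mem_toList, Finset.mem_filter, Finset.mem_powerset]

theorem subsLt_nodup (k n : ℕ) : (subsLt k n).Nodup := Finset.nodup_toList _

theorem subs_length (k n : ℕ) : (subs k n).length ≤ (n + 2) ^ k := by
  rw [subs, Finset.length_toList, Finset.card_powersetCard, Finset.card_range]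
  exact (Nat.choose_le_pow n k).trans (Nat.pow_le_pow_left (by omega) k)

theorem subsLt_length (k n : ℕ) : (subsLt k n).length ≤ (n + 2) ^ k := by
  rw [subsLt, Finset.length_toList]
  induction k with
  | zero => simp
  | succ k ih =>
    have h1 : ((Finset.range n).powerset.filter fun S => S.card < k + 1) ⊆
        ((Finset.range n).powerset.filter fun S => S.card < k) ∪
          (Finset.range n).powersetCard k := by
      intro S hS
      rw [Finset.mem_filter, Finset.mem_powerset] at hS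
      rw [Finset.mem_union, Finset.mem_filter, Finset.mem_powerset, Finset.mem_powersetCard]
      rcases lt_or_eq_of_le (Nat.lt_succ_iff.1 hS.2) with h | h
      · exact Or.inl ⟨hS.1, h⟩
      · exact Or.inr ⟨hS.1, h⟩
    refine (Finset.card_le_card h1).trans ((Finset.card_union_le _ _).trans ?_)
    rw [Finset.card_powersetCard, Finset.card_range, pow_succ]
    have h2 := (Nat.choose_le_pow n k).trans (Nat.pow_le_pow_left (show n ≤ n + 2 by omega) k)
    nlinarith

theorem range_length_le {n m : ℕ} (h : m ≤ n) : (List.range m).length ≤ (n + 2) ^ 1 := by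
  rw [List.length_range, pow_one]; omega

theorem slots_length {k n m : ℕ} (h : m ≤ n) : (slots k m).length ≤ (n + 2) ^ (2 * k * k + 1) := by
  rw [slots]
  have : ((List.range m).product (List.range (2 * k * k))).length = m * (2 * k * k) :=
    (List.length_product _ _).trans (by rw [List.length_range, List.length_range])
  rw [this, pow_succ, mul_comm]
  exact Nat.mul_le_mul (const_le n _) (by omega)

theorem disj_length (k n : ℕ) : (disj k n).length ≤ (n + 2) ^ (2 * k) := by
  rw [disj]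
  refine (List.length_filter_le _ _).trans ?_
  refine (List.length_product _ _).le.trans ?_
  rw [two_mul, pow_add]
  exact Nat.mul_le_mul (subs_length k n) (subs_length k n)

theorem pairs_length (n : ℕ) (q : ℕ × ℕ → Bool) :
    (((List.range n).product (List.range n)).filter q).length ≤ (n + 2) ^ 2 := by
  refine (List.length_filter_le _ _).trans ?_
  refine (List.length_product _ _).le.trans ?_
  rw [List.length_range, pow_two]
  exact Nat.mul_le_mul (by omega) (by omega)

/-! ### formulas -/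

section sizes

variable {k n m : ℕ}

theorem allof_pow {Q : ℕ → Fm} {b c : ℕ} (h : ∀ y < n, (Q y).size ≤ (n + 2) ^ b) (N : Finset ℕ)
    (hc : b + 4 ≤ c) : (allof n Q N).size ≤ (n + 2) ^ c := by
  refine AND_pow (a := 1) (b := b) ?_ (fun x hx => h x ?_) (by omega)
  · exact (List.length_filter_le _ _).trans (range_length_le le_rfl)
  · exact List.mem_range.1 (List.mem_filter.1 hx).1

theorem exactly_pow {Q : ℕ → Fm} {b c : ℕ} (h : ∀ y < n, (Q y).size ≤ (n + 2) ^ b)
    (N : Finset ℕ) (hc : b + 5 ≤ c) : (exactly n Q N).size ≤ (n + 2) ^ c := by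
  refine AND_pow (a := 1) (b := b + 1) (range_length_le le_rfl) (fun x hx => ?_) (by omega)
  have h1 := h x (List.mem_range.1 hx)
  have h2 := pw_two n (a := b) (b := b + 1) 1 le_rfl
  have h3 := pw_pos n b
  split_ifs
  · omega
  · simp only [size]; omega

theorem pv_size (S : Finset ℕ) (i : ℕ) : (pv S i).size = 1 := rfl

theorem HT_pow (h : m ≤ n) : (HT k n m).size ≤ (n + 2) ^ (k + 7) := by
  refine AND_pow (a := k) (b := 4) (subs_length k n) (fun S _ => ?_) (by omega)
  exact OR_pow (a := 1) (b := 0) (range_length_le h) (fun i _ => by simp [pv_size]) (by omega)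

theorem HI_pow (h : m ≤ n) : (HI k n m).size ≤ (n + 2) ^ (2 * k + 9) := by
  refine AND_pow (a := 2 * k) (b := 6) (disj_length k n) (fun S _ => ?_) (by omega)
  refine AND_pow (a := 1) (b := 2) (range_length_le h) (fun i _ => ?_) (by omega)
  simp only [size, pv_size]
  have := Nat.pow_le_pow_left (show 2 ≤ n + 2 by omega) 2
  omega

theorem HD_pow (h : m ≤ n) : (HD k n m).size ≤ (n + 2) ^ (2 * k + 9) := by
  refine OR_pow (a := 2 * k) (b := 6) (disj_length k n) (fun S _ => ?_) (by omega)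
  refine OR_pow (a := 1) (b := 2) (range_length_le h) (fun i _ => ?_) (by omega)
  simp only [size, pv_size]
  have := Nat.pow_le_pow_left (show 2 ≤ n + 2 by omega) 2
  omega

theorem cen_pow (i z : ℕ) : (cen k n i z).size ≤ (n + 2) ^ (k + 4) := by
  refine AND_pow (a := k) (b := 1) ((List.length_filter_le _ _).trans (subs_length k n))
    (fun S _ => ?_) (by omega)
  simp only [size, pv_size, pow_one]
  omega

theorem isStar_pow (i : ℕ) : (isStar k n i).size ≤ (n + 2) ^ (k + 8) :=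
  OR_pow (a := 1) (b := k + 4) (range_length_le le_rfl) (fun z _ => cen_pow i z) (by omega)

theorem ctr_pow (i z : ℕ) : (ctr k n i z).size ≤ (n + 2) ^ (k + 8) :=
  Least_pow (a := 1) (b := k + 4) (range_length_le le_rfl) (fun z _ => cen_pow i z) (cen_pow i z)
    (by omega)

theorem neg_pow {A : Fm} {b c : ℕ} (h : A.size ≤ (n + 2) ^ b) (hc : b + 1 ≤ c) :
    (neg A).size ≤ (n + 2) ^ c := by
  have h2 := pw_two n (a := b) (b := c) 1 hc
  have h3 := pw_pos n b
  simp only [size]
  omega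

theorem and_pow {A B : Fm} {b c : ℕ} (h : A.size ≤ (n + 2) ^ b) (h' : B.size ≤ (n + 2) ^ b)
    (hc : b + 2 ≤ c) : (and A B).size ≤ (n + 2) ^ c := by
  have h2 := pw_two n (a := b) (b := c) 2 hc
  have h3 := pw_pos n b
  simp only [size]
  omega

theorem Uf_pow (h : m ≤ n) (x : ℕ) : (Uf k n m x).size ≤ (n + 2) ^ (k + 13) :=
  AND_pow (a := 1) (b := k + 9) (range_length_le h) (fun i _ => neg_pow (ctr_pow i x) (by omega))
    (by omega)

theorem nst_pow (h : m ≤ n) (T : Finset ℕ) : (nst k n m T).size ≤ (n + 2) ^ (k + 13) := by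
  refine AND_pow (a := 1) (b := k + 9) ?_ (fun i _ => neg_pow (isStar_pow i) (by omega))
    (by omega)
  exact (List.length_filter_le _ _).trans (range_length_le h)

theorem L0_pow (i : ℕ) (S : Finset ℕ) : (L0 k n i S).size ≤ (n + 2) ^ (k + 3) :=
  Least_pow (a := k) (b := 0) (subs_length k n) (fun z _ => by simp [pv_size])
    (by simp [pv_size]) (by omega)

theorem L1_pow (i x : ℕ) (S : Finset ℕ) : (L1 k n i x S).size ≤ (n + 2) ^ (k + 3) :=
  Least_pow (a := k) (b := 0) ((List.length_filter_le _ _).trans (subs_length k n))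
    (fun z _ => by simp [pv_size]) (by simp [pv_size]) (by omega)

theorem inc0_pow (i a b x y : ℕ) : (inc0 k n i a b x y).size ≤ (n + 2) ^ (2 * k + 13) := by
  have h1 : (neg (isStar k n i)).size ≤ (n + 2) ^ (2 * k + 10) :=
    neg_pow (isStar_pow i) (by omega)
  have h2 : (OR (((subs k n).filter fun S => x ∈ S ∧ posn S x = a).map
      fun S => L0 k n i S)).size ≤ (n + 2) ^ (2 * k + 6) :=
    OR_pow (a := k) (b := k + 3) ((List.length_filter_le _ _).trans (subs_length k n))
      (fun S _ => L0_pow i S) (by omega)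
  have h3 : (OR (((subs k n).filter fun S => x ∉ S ∧ y ∈ S ∧ posn S y = b).map
      fun S => L1 k n i x S)).size ≤ (n + 2) ^ (2 * k + 6) :=
    OR_pow (a := k) (b := k + 3) ((List.length_filter_le _ _).trans (subs_length k n))
      (fun S _ => L1_pow i x S) (by omega)
  refine and_pow (b := 2 * k + 11) (h1.trans (pw_mono n (by omega))) ?_ (by omega)
  exact and_pow h2 h3 (by omega)

theorem inc_pow (i h x y : ℕ) : (inc k n i h x y).size ≤ (n + 2) ^ (2 * k + 13) := by
  unfold inc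
  split_ifs
  · exact inc0_pow _ _ _ _ _
  · exact inc0_pow _ _ _ _ _

theorem Adj_pow (h : m ≤ n) (x y : ℕ) :
    (Adj k n m x y).size ≤ (n + 2) ^ (2 * k * k + 2 * k + 17) :=
  OR_pow (a := 2 * k * k + 1) (b := 2 * k + 13) (slots_length h) (fun s _ => inc_pow _ _ _ _)
    (by omega)

theorem adjs_pow (h : m ≤ n) (x : ℕ) (Y : Finset ℕ) :
    (allof n (fun y => Adj k n m x y) Y).size ≤ (n + 2) ^ (2 * k * k + 2 * k + 21) :=
  allof_pow (fun y _ => Adj_pow h x y) Y (by omega)

theorem High_pow (h : m ≤ n) (x : ℕ) :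
    (High k n m x).size ≤ (n + 2) ^ (4 * k * k + 2 * k + 25) :=
  OR_pow (a := Wk k) (b := 2 * k * k + 2 * k + 21) (subs_length _ n) (fun Y _ => adjs_pow h x Y)
    (by unfold Wk; nlinarith)

theorem LG_pow (h : m ≤ n) (x : ℕ) (Y : Finset ℕ) :
    (LG k n m x Y).size ≤ (n + 2) ^ (4 * k * k + 2 * k + 25) :=
  Least_pow (a := Wk k) (b := 2 * k * k + 2 * k + 21) (subs_length _ n)
    (fun Y _ => adjs_pow h x Y) (adjs_pow h x Y) (by unfold Wk; nlinarith)

theorem Low_pow (h : m ≤ n) (x : ℕ) :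
    (Low k n m x).size ≤ (n + 2) ^ (4 * k * k + 2 * k + 28) :=
  and_pow (b := 4 * k * k + 2 * k + 26) ((Uf_pow h x).trans (pw_mono n (by nlinarith)))
    (neg_pow (High_pow h x) (by omega)) (by omega)

theorem Ind_pow (h : m ≤ n) (I : Finset ℕ) :
    (Ind k n m I).size ≤ (n + 2) ^ (4 * k * k + 2 * k + 34) := by
  refine and_pow (b := 4 * k * k + 2 * k + 32) (allof_pow (fun x _ => Low_pow h x) I (by omega))
    ?_ (by omega)
  refine AND_pow (a := 2) (b := 2 * k * k + 2 * k + 18) (pairs_length n _)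
    (fun q _ => neg_pow (Adj_pow h _ _) (by omega)) (by nlinarith)

end sizes

end Pool.Agent.Y528.KL
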